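import Pool.Agent.Gab7c_h87.CY2.A0
import Pool.Agent.Gab7c_h87.CY2.A1
import Pool.Agent.Gab7c_h87.CY2.A2
import Pool.Agent.Gab7c_h87.CY2.A3
import Pool.Agent.Gab7c_h87.CY2.T0
import Pool.Agent.Gab7c_h87.CY2.T1
import Pool.Agent.Gab7c_h87.CY2.T2
import Pool.Agent.Gab7c_h87.CY2.T3
import Pool.Agent.Gab7c_h87.CY2.T4
import Pool.Agent.Gab7c_h87.CY2.T5
import Pool.Agent.Gab7c_h87.CY2.T6
import Pool.Agent.Gab7c_h87.CY2.T7
import Pool.Agent.Gab7c_h87.CY2.T8
import Pool.Agent.Gab7c_h87.CY2.T9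
import Pool.Agent.Gab7c_h87.CY2.T10

/-! Certificate; see `Pool/Agent/Gab7c_h87/Ax.lean`. -/

set_option autoImplicit false
set_option maxRecDepth 100000

namespace Pool.Agent.Gab7c_h87.CY2

open Pool.Agent.Gab7c_h87.Sat

theorem z : Tr.get 0 g 23048 = 0 := by decide +kernel

/-- The problem with these parameters has no solution. -/
theorem bad {α : Type*} [DecidableEq α] (c : Cx α)
    (hp : c.toPar = ⟨7, 127, 55, [(3, 3), (4, 2), (5, 1), (6, 0)], [12823, 3560], [], []⟩) : False := by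
  have s0 := axchk_sound c hp _ _ _ _ _ a0
  have s0 := s0.trans (axchk_sound c hp _ _ _ _ _ a1)
  have s0 := s0.trans (axchk_sound c hp _ _ _ _ _ a2)
  have s0 := s0.trans (axchk_sound c hp _ _ _ _ _ a3)
  have s0 := chk_sound' t0 (e := 10885) rfl s0
  have s0 := chk_sound' t1 (e := 14943) rfl s0
  have s0 := chk_sound' t2 (e := 17842) rfl s0
  have s0 := chk_sound' t3 (e := 18669) rfl s0
  have s0 := chk_sound' t4 (e := 19350) rfl s0
  have s0 := chk_sound' t5 (e := 20129) rfl s0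
  have s0 := chk_sound' t6 (e := 20836) rfl s0
  have s0 := chk_sound' t7 (e := 21562) rfl s0
  have s0 := chk_sound' t8 (e := 22267) rfl s0
  have s0 := chk_sound' t9 (e := 22901) rfl s0
  have s0 := chk_sound' t10 (e := 23049) rfl s0
  exact s0.false z

end Pool.Agent.Gab7c_h87.CY2
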