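import Pool.Agent.Gab7c_h87.Ax

/-! Certificate; see `Pool/Agent/Gab7c_h87/Ax.lean`. -/

set_option autoImplicit false
set_option maxRecDepth 100000

namespace Pool.Agent.Gab7c_h87.CY2

open Pool.Agent.Gab7c_h87.Sat

/-- the variables -/
def v : Tr VC := (.node (.node (.node (.node (.node (.node (.node (.node (.node (.node (.node (.node (.leaf ⟨0, 5976, 0, 0⟩)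
(.leaf ⟨1, 35, 19, 0⟩))
(.leaf ⟨0, 10327, 0, 0⟩))
(.node (.leaf ⟨0, 10535, 0, 0⟩)
(.leaf ⟨0, 10612, 0, 0⟩)))
(.node (.node (.leaf ⟨1, 11, 35, 0⟩)
(.leaf ⟨1, 60, 116, 0⟩))
(.node (.leaf ⟨0, 15388, 0, 0⟩)
(.leaf ⟨0, 10295, 0, 0⟩))))
(.node (.node (.node (.leaf ⟨0, 10407, 0, 0⟩)
(.leaf ⟨1, 52, 100, 0⟩))
(.node (.leaf ⟨2, 12871, 0, 0⟩)
(.leaf ⟨0, 10414, 0, 0⟩)))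
(.node (.node (.leaf ⟨0, 3000, 0, 0⟩)
(.leaf ⟨0, 13575, 0, 0⟩))
(.node (.leaf ⟨0, 637, 0, 0⟩)
(.leaf ⟨1, 14, 14, 0⟩)))))
(.node (.node (.node (.node (.leaf ⟨0, 1389, 0, 0⟩)
(.leaf ⟨1, 23, 71, 0⟩))
(.node (.leaf ⟨0, 8430, 0, 0⟩)
(.leaf ⟨0, 15010, 0, 0⟩)))
(.node (.node (.leaf ⟨0, 2018, 0, 0⟩)
(.leaf ⟨1, 74, 88, 0⟩))
(.node (.leaf ⟨0, 4687, 0, 0⟩)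
(.leaf ⟨0, 11910, 0, 0⟩))))
(.node (.node (.node (.leaf ⟨0, 4016, 0, 0⟩)
(.leaf ⟨0, 2143, 0, 0⟩))
(.node (.leaf ⟨0, 14855, 0, 0⟩)
(.leaf ⟨2, 14855, 0, 0⟩)))
(.node (.node (.leaf ⟨2, 6803, 0, 0⟩)
(.leaf ⟨2, 10287, 0, 0⟩))
(.node (.leaf ⟨0, 7251, 0, 0⟩)
(.leaf ⟨2, 14605, 0, 0⟩))))))
(.node (.node (.node (.node (.node (.node (.leaf ⟨1, 15, 77, 0⟩)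
(.leaf ⟨2, 15371, 0, 0⟩))
(.leaf ⟨0, 13462, 0, 0⟩))
(.node (.leaf ⟨1, 64, 8, 0⟩)
(.leaf ⟨1, 16, 32, 0⟩)))
(.node (.node (.leaf ⟨0, 2223, 0, 0⟩)
(.leaf ⟨1, 3, 9, 0⟩))
(.node (.leaf ⟨1, 124, 117, 0⟩)
(.leaf ⟨1, 105, 114, 0⟩))))
(.node (.node (.node (.leaf ⟨2, 13187, 0, 0⟩)
(.leaf ⟨0, 1948, 0, 0⟩))
(.node (.leaf ⟨2, 9295, 0, 0⟩)
(.leaf ⟨2, 491, 0, 0⟩)))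
(.node (.node (.leaf ⟨2, 8367, 0, 0⟩)
(.leaf ⟨0, 16032, 0, 0⟩))
(.node (.leaf ⟨0, 8952, 0, 0⟩)
(.leaf ⟨2, 12851, 0, 0⟩)))))
(.node (.node (.node (.node (.leaf ⟨1, 58, 116, 0⟩)
(.leaf ⟨0, 6056, 0, 0⟩))
(.node (.leaf ⟨1, 2, 16, 0⟩)
(.leaf ⟨0, 3928, 0, 0⟩)))
(.node (.node (.leaf ⟨1, 104, 52, 0⟩)
(.leaf ⟨2, 2173, 0, 0⟩))
(.node (.leaf ⟨0, 11688, 0, 0⟩)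
(.leaf ⟨1, 13, 7, 0⟩))))
(.node (.node (.node (.leaf ⟨0, 2238, 0, 0⟩)
(.leaf ⟨1, 58, 101, 0⟩))
(.node (.leaf ⟨0, 10887, 0, 0⟩)
(.leaf ⟨1, 25, 35, 0⟩)))
(.node (.node (.leaf ⟨1, 48, 72, 0⟩)
(.leaf ⟨1, 98, 98, 0⟩))
(.node (.leaf ⟨1, 21, 41, 0⟩)
(.leaf ⟨2, 11527, 0, 0⟩)))))))
(.node (.node (.node (.node (.node (.node (.node (.leaf ⟨0, 13193, 0, 0⟩)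
(.leaf ⟨0, 1374, 0, 0⟩))
(.leaf ⟨0, 4040, 0, 0⟩))
(.node (.leaf ⟨2, 7699, 0, 0⟩)
(.leaf ⟨2, 12375, 0, 0⟩)))
(.node (.node (.leaf ⟨2, 14085, 0, 0⟩)
(.leaf ⟨2, 7057, 0, 0⟩))
(.node (.leaf ⟨0, 13708, 0, 0⟩)
(.leaf ⟨1, 9, 18, 0⟩))))
(.node (.node (.node (.leaf ⟨0, 13351, 0, 0⟩)
(.leaf ⟨0, 5577, 0, 0⟩))
(.node (.leaf ⟨0, 1001, 0, 0⟩)
(.leaf ⟨0, 14929, 0, 0⟩)))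
(.node (.node (.leaf ⟨0, 2159, 0, 0⟩)
(.leaf ⟨1, 65, 9, 0⟩))
(.node (.leaf ⟨0, 6628, 0, 0⟩)
(.leaf ⟨0, 12224, 0, 0⟩)))))
(.node (.node (.node (.node (.leaf ⟨0, 12164, 0, 0⟩)
(.leaf ⟨0, 13843, 0, 0⟩))
(.node (.leaf ⟨0, 12559, 0, 0⟩)
(.leaf ⟨0, 382, 0, 0⟩)))
(.node (.node (.leaf ⟨0, 13387, 0, 0⟩)
(.leaf ⟨0, 7888, 0, 0⟩))
(.node (.leaf ⟨1, 31, 59, 0⟩)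
(.leaf ⟨0, 6423, 0, 0⟩))))
(.node (.node (.node (.leaf ⟨1, 11, 7, 0⟩)
(.leaf ⟨0, 6604, 0, 0⟩))
(.node (.leaf ⟨0, 1119, 0, 0⟩)
(.leaf ⟨0, 14145, 0, 0⟩)))
(.node (.node (.leaf ⟨1, 59, 47, 0⟩)
(.leaf ⟨1, 22, 19, 0⟩))
(.node (.leaf ⟨0, 12941, 0, 0⟩)
(.leaf ⟨0, 5608, 0, 0⟩))))))
(.node (.node (.node (.node (.node (.node (.leaf ⟨0, 7941, 0, 0⟩)
(.leaf ⟨0, 6919, 0, 0⟩))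
(.leaf ⟨0, 15379, 0, 0⟩))
(.node (.leaf ⟨0, 12854, 0, 0⟩)
(.leaf ⟨0, 13196, 0, 0⟩)))
(.node (.node (.leaf ⟨1, 39, 71, 0⟩)
(.leaf ⟨0, 11120, 0, 0⟩))
(.node (.leaf ⟨0, 7136, 0, 0⟩)
(.leaf ⟨0, 3131, 0, 0⟩))))
(.node (.node (.node (.leaf ⟨1, 28, 84, 0⟩)
(.leaf ⟨2, 12829, 0, 0⟩))
(.node (.leaf ⟨1, 29, 27, 0⟩)
(.leaf ⟨0, 1497, 0, 0⟩)))
(.node (.node (.leaf ⟨0, 6616, 0, 0⟩)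
(.leaf ⟨2, 13955, 0, 0⟩))
(.node (.leaf ⟨2, 6679, 0, 0⟩)
(.leaf ⟨0, 8819, 0, 0⟩)))))
(.node (.node (.node (.node (.leaf ⟨1, 74, 104, 0⟩)
(.leaf ⟨0, 2428, 0, 0⟩))
(.node (.leaf ⟨0, 8375, 0, 0⟩)
(.leaf ⟨2, 7221, 0, 0⟩)))
(.node (.node (.leaf ⟨0, 4345, 0, 0⟩)
(.leaf ⟨0, 6266, 0, 0⟩))
(.node (.leaf ⟨2, 10349, 0, 0⟩)
(.leaf ⟨1, 1, 2, 0⟩))))
(.node (.node (.node (.leaf ⟨0, 4461, 0, 0⟩)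
(.leaf ⟨0, 2263, 0, 0⟩))
(.node (.leaf ⟨0, 4473, 0, 0⟩)
(.leaf ⟨1, 53, 23, 0⟩)))
(.node (.node (.leaf ⟨2, 3025, 0, 0⟩)
(.leaf ⟨0, 13264, 0, 0⟩))
(.node (.leaf ⟨1, 78, 60, 0⟩)
(.leaf ⟨2, 15379, 0, 0⟩))))))))
(.node (.node (.node (.node (.node (.node (.node (.node (.leaf ⟨1, 73, 88, 0⟩)
(.leaf ⟨1, 108, 60, 0⟩))
(.leaf ⟨1, 13, 26, 0⟩))
(.node (.leaf ⟨2, 11783, 0, 0⟩)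
(.leaf ⟨1, 16, 4, 0⟩)))
(.node (.node (.leaf ⟨1, 110, 110, 0⟩)
(.leaf ⟨0, 7825, 0, 0⟩))
(.node (.leaf ⟨0, 6993, 0, 0⟩)
(.leaf ⟨1, 92, 116, 0⟩))))
(.node (.node (.node (.leaf ⟨0, 2492, 0, 0⟩)
(.leaf ⟨1, 99, 27, 0⟩))
(.node (.leaf ⟨2, 7219, 0, 0⟩)
(.leaf ⟨1, 42, 112, 0⟩)))
(.node (.node (.leaf ⟨2, 6695, 0, 0⟩)
(.leaf ⟨1, 23, 77, 0⟩))
(.node (.leaf ⟨0, 13713, 0, 0⟩)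
(.leaf ⟨1, 5, 24, 0⟩)))))
(.node (.node (.node (.node (.leaf ⟨0, 3166, 0, 0⟩)
(.leaf ⟨2, 12573, 0, 0⟩))
(.node (.leaf ⟨1, 45, 39, 0⟩)
(.leaf ⟨0, 12037, 0, 0⟩)))
(.node (.node (.leaf ⟨1, 97, 56, 0⟩)
(.leaf ⟨0, 3133, 0, 0⟩))
(.node (.leaf ⟨0, 1404, 0, 0⟩)
(.leaf ⟨0, 11921, 0, 0⟩))))
(.node (.node (.node (.leaf ⟨0, 494, 0, 0⟩)
(.leaf ⟨0, 9132, 0, 0⟩))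
(.node (.leaf ⟨0, 9402, 0, 0⟩)
(.leaf ⟨1, 56, 56, 0⟩)))
(.node (.node (.leaf ⟨2, 11303, 0, 0⟩)
(.leaf ⟨0, 7408, 0, 0⟩))
(.node (.leaf ⟨0, 7600, 0, 0⟩)
(.leaf ⟨2, 1009, 0, 0⟩))))))
(.node (.node (.node (.node (.node (.node (.leaf ⟨0, 14986, 0, 0⟩)
(.leaf ⟨0, 2490, 0, 0⟩))
(.leaf ⟨0, 5199, 0, 0⟩))
(.node (.leaf ⟨1, 71, 71, 0⟩)
(.leaf ⟨0, 10724, 0, 0⟩)))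
(.node (.node (.leaf ⟨1, 99, 15, 0⟩)
(.leaf ⟨2, 11287, 0, 0⟩))
(.node (.leaf ⟨1, 14, 7, 0⟩)
(.leaf ⟨2, 5065, 0, 0⟩))))
(.node (.node (.node (.leaf ⟨0, 10835, 0, 0⟩)
(.leaf ⟨0, 1908, 0, 0⟩))
(.node (.leaf ⟨2, 3041, 0, 0⟩)
(.leaf ⟨0, 2793, 0, 0⟩)))
(.node (.node (.leaf ⟨1, 87, 59, 0⟩)
(.leaf ⟨0, 5229, 0, 0⟩))
(.node (.leaf ⟨0, 319, 0, 0⟩)
(.leaf ⟨1, 76, 56, 0⟩)))))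
(.node (.node (.node (.node (.leaf ⟨1, 21, 22, 0⟩)
(.leaf ⟨0, 10148, 0, 0⟩))
(.node (.leaf ⟨0, 5080, 0, 0⟩)
(.leaf ⟨2, 15621, 0, 0⟩)))
(.node (.node (.leaf ⟨0, 239, 0, 0⟩)
(.leaf ⟨0, 7076, 0, 0⟩))
(.node (.leaf ⟨0, 8032, 0, 0⟩)
(.leaf ⟨0, 7564, 0, 0⟩))))
(.node (.node (.node (.leaf ⟨0, 13962, 0, 0⟩)
(.leaf ⟨1, 80, 72, 0⟩))
(.node (.leaf ⟨1, 53, 39, 0⟩)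
(.leaf ⟨0, 3530, 0, 0⟩)))
(.node (.node (.leaf ⟨2, 12367, 0, 0⟩)
(.leaf ⟨1, 104, 74, 0⟩))
(.node (.leaf ⟨0, 6237, 0, 0⟩)
(.leaf ⟨2, 13075, 0, 0⟩)))))))
(.node (.node (.node (.node (.node (.node (.node (.leaf ⟨0, 6679, 0, 0⟩)
(.leaf ⟨0, 3448, 0, 0⟩))
(.leaf ⟨2, 12839, 0, 0⟩))
(.node (.leaf ⟨0, 3988, 0, 0⟩)
(.leaf ⟨1, 72, 66, 0⟩)))
(.node (.node (.leaf ⟨2, 10343, 0, 0⟩)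
(.leaf ⟨2, 14113, 0, 0⟩))
(.node (.leaf ⟨0, 16002, 0, 0⟩)
(.leaf ⟨1, 21, 14, 0⟩))))
(.node (.node (.node (.leaf ⟨1, 72, 24, 0⟩)
(.leaf ⟨0, 755, 0, 0⟩))
(.node (.leaf ⟨2, 9271, 0, 0⟩)
(.leaf ⟨0, 431, 0, 0⟩)))
(.node (.node (.leaf ⟨1, 8, 8, 0⟩)
(.leaf ⟨2, 14603, 0, 0⟩))
(.node (.leaf ⟨1, 74, 56, 0⟩)
(.leaf ⟨0, 3181, 0, 0⟩)))))
(.node (.node (.node (.node (.leaf ⟨0, 13581, 0, 0⟩)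
(.leaf ⟨0, 12398, 0, 0⟩))
(.node (.leaf ⟨0, 1778, 0, 0⟩)
(.leaf ⟨2, 4207, 0, 0⟩)))
(.node (.node (.leaf ⟨2, 8503, 0, 0⟩)
(.leaf ⟨0, 13413, 0, 0⟩))
(.node (.leaf ⟨0, 8696, 0, 0⟩)
(.leaf ⟨1, 56, 52, 0⟩))))
(.node (.node (.node (.leaf ⟨1, 75, 29, 0⟩)
(.leaf ⟨0, 15234, 0, 0⟩))
(.node (.leaf ⟨0, 7058, 0, 0⟩)
(.leaf ⟨0, 7120, 0, 0⟩)))
(.node (.node (.leaf ⟨0, 14876, 0, 0⟩)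
(.leaf ⟨0, 9656, 0, 0⟩))
(.node (.leaf ⟨1, 105, 106, 0⟩)
(.leaf ⟨0, 13969, 0, 0⟩))))))
(.node (.node (.node (.node (.node (.node (.leaf ⟨1, 20, 72, 0⟩)
(.leaf ⟨0, 14086, 0, 0⟩))
(.leaf ⟨1, 7, 14, 0⟩))
(.node (.leaf ⟨0, 379, 0, 0⟩)
(.leaf ⟨1, 32, 8, 0⟩)))
(.node (.node (.leaf ⟨0, 10823, 0, 0⟩)
(.leaf ⟨0, 5841, 0, 0⟩))
(.node (.leaf ⟨1, 7, 22, 0⟩)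
(.leaf ⟨0, 3151, 0, 0⟩))))
(.node (.node (.node (.leaf ⟨1, 31, 47, 0⟩)
(.leaf ⟨0, 12963, 0, 0⟩))
(.node (.leaf ⟨0, 12168, 0, 0⟩)
(.leaf ⟨0, 13861, 0, 0⟩)))
(.node (.node (.leaf ⟨1, 124, 109, 0⟩)
(.leaf ⟨0, 12583, 0, 0⟩))
(.node (.leaf ⟨0, 13859, 0, 0⟩)
(.leaf ⟨0, 1516, 0, 0⟩)))))
(.node (.node (.node (.node (.leaf ⟨2, 6081, 0, 0⟩)
(.leaf ⟨2, 8495, 0, 0⟩))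
(.node (.leaf ⟨2, 13341, 0, 0⟩)
(.leaf ⟨0, 7000, 0, 0⟩)))
(.node (.node (.leaf ⟨0, 11527, 0, 0⟩)
(.leaf ⟨0, 3292, 0, 0⟩))
(.node (.leaf ⟨1, 60, 120, 0⟩)
(.leaf ⟨0, 9031, 0, 0⟩))))
(.node (.node (.node (.leaf ⟨2, 14411, 0, 0⟩)
(.leaf ⟨0, 2032, 0, 0⟩))
(.node (.leaf ⟨2, 1143, 0, 0⟩)
(.leaf ⟨0, 3992, 0, 0⟩)))
(.node (.node (.leaf ⟨1, 118, 103, 0⟩)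
(.leaf ⟨0, 7384, 0, 0⟩))
(.node (.leaf ⟨0, 12049, 0, 0⟩)
(.leaf ⟨0, 4348, 0, 0⟩)))))))))
(.node (.node (.node (.node (.node (.node (.node (.node (.node (.leaf ⟨0, 10129, 0, 0⟩)
(.leaf ⟨0, 7221, 0, 0⟩))
(.leaf ⟨1, 118, 124, 0⟩))
(.node (.leaf ⟨0, 14407, 0, 0⟩)
(.leaf ⟨0, 13250, 0, 0⟩)))
(.node (.node (.leaf ⟨0, 14885, 0, 0⟩)
(.leaf ⟨1, 24, 68, 0⟩))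
(.node (.leaf ⟨1, 66, 72, 0⟩)
(.leaf ⟨0, 3540, 0, 0⟩))))
(.node (.node (.node (.leaf ⟨1, 62, 31, 0⟩)
(.leaf ⟨1, 109, 124, 0⟩))
(.node (.leaf ⟨0, 13280, 0, 0⟩)
(.leaf ⟨0, 5655, 0, 0⟩)))
(.node (.node (.leaf ⟨0, 8557, 0, 0⟩)
(.leaf ⟨1, 34, 96, 0⟩))
(.node (.leaf ⟨1, 21, 37, 0⟩)
(.leaf ⟨1, 39, 46, 0⟩)))))
(.node (.node (.node (.node (.leaf ⟨1, 32, 64, 0⟩)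
(.leaf ⟨1, 106, 92, 0⟩))
(.node (.leaf ⟨2, 11399, 0, 0⟩)
(.leaf ⟨0, 11318, 0, 0⟩)))
(.node (.node (.leaf ⟨0, 15760, 0, 0⟩)
(.leaf ⟨1, 7, 56, 0⟩))
(.node (.leaf ⟨0, 9511, 0, 0⟩)
(.leaf ⟨1, 112, 42, 0⟩))))
(.node (.node (.node (.leaf ⟨0, 14100, 0, 0⟩)
(.leaf ⟨0, 2746, 0, 0⟩))
(.node (.leaf ⟨0, 1149, 0, 0⟩)
(.leaf ⟨1, 72, 48, 0⟩)))
(.node (.node (.leaf ⟨0, 15152, 0, 0⟩)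
(.leaf ⟨2, 12049, 0, 0⟩))
(.node (.leaf ⟨2, 14867, 0, 0⟩)
(.leaf ⟨1, 29, 29, 0⟩))))))
(.node (.node (.node (.node (.node (.node (.leaf ⟨0, 2478, 0, 0⟩)
(.leaf ⟨0, 14382, 0, 0⟩))
(.leaf ⟨0, 6584, 0, 0⟩))
(.node (.leaf ⟨0, 15114, 0, 0⟩)
(.leaf ⟨0, 13397, 0, 0⟩)))
(.node (.node (.leaf ⟨1, 45, 23, 0⟩)
(.leaf ⟨0, 13891, 0, 0⟩))
(.node (.leaf ⟨1, 1, 16, 0⟩)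
(.leaf ⟨1, 74, 100, 0⟩))))
(.node (.node (.node (.leaf ⟨1, 23, 53, 0⟩)
(.leaf ⟨1, 65, 24, 0⟩))
(.node (.leaf ⟨0, 11363, 0, 0⟩)
(.leaf ⟨0, 13701, 0, 0⟩)))
(.node (.node (.leaf ⟨2, 14209, 0, 0⟩)
(.leaf ⟨0, 12349, 0, 0⟩))
(.node (.leaf ⟨0, 2421, 0, 0⟩)
(.leaf ⟨1, 29, 15, 0⟩)))))
(.node (.node (.node (.node (.leaf ⟨0, 8871, 0, 0⟩)
(.leaf ⟨1, 6, 17, 0⟩))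
(.node (.leaf ⟨0, 2297, 0, 0⟩)
(.leaf ⟨2, 14993, 0, 0⟩)))
(.node (.node (.leaf ⟨0, 10146, 0, 0⟩)
(.leaf ⟨1, 23, 51, 0⟩))
(.node (.leaf ⟨1, 18, 10, 0⟩)
(.leaf ⟨0, 11335, 0, 0⟩))))
(.node (.node (.node (.leaf ⟨0, 8999, 0, 0⟩)
(.leaf ⟨2, 15169, 0, 0⟩))
(.node (.leaf ⟨2, 11027, 0, 0⟩)
(.leaf ⟨0, 12347, 0, 0⟩)))
(.node (.node (.leaf ⟨1, 5, 12, 0⟩)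
(.leaf ⟨0, 5074, 0, 0⟩))
(.node (.leaf ⟨0, 12395, 0, 0⟩)
(.leaf ⟨2, 2521, 0, 0⟩)))))))
(.node (.node (.node (.node (.node (.node (.node (.leaf ⟨2, 12827, 0, 0⟩)
(.leaf ⟨1, 46, 116, 0⟩))
(.leaf ⟨2, 8375, 0, 0⟩))
(.node (.leaf ⟨1, 65, 17, 0⟩)
(.leaf ⟨1, 56, 104, 0⟩)))
(.node (.node (.leaf ⟨0, 11208, 0, 0⟩)
(.leaf ⟨0, 12621, 0, 0⟩))
(.node (.leaf ⟨0, 3388, 0, 0⟩)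
(.leaf ⟨2, 9359, 0, 0⟩))))
(.node (.node (.node (.leaf ⟨1, 54, 71, 0⟩)
(.leaf ⟨0, 1498, 0, 0⟩))
(.node (.leaf ⟨2, 5223, 0, 0⟩)
(.leaf ⟨1, 7, 42, 0⟩)))
(.node (.node (.leaf ⟨0, 4219, 0, 0⟩)
(.leaf ⟨0, 3554, 0, 0⟩))
(.node (.leaf ⟨0, 13768, 0, 0⟩)
(.leaf ⟨2, 12335, 0, 0⟩)))))
(.node (.node (.node (.node (.leaf ⟨0, 7088, 0, 0⟩)
(.leaf ⟨0, 247, 0, 0⟩))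
(.node (.leaf ⟨1, 3, 12, 0⟩)
(.leaf ⟨0, 2411, 0, 0⟩)))
(.node (.node (.leaf ⟨2, 13357, 0, 0⟩)
(.leaf ⟨1, 72, 80, 0⟩))
(.node (.leaf ⟨0, 13906, 0, 0⟩)
(.leaf ⟨0, 13587, 0, 0⟩))))
(.node (.node (.node (.leaf ⟨1, 104, 88, 0⟩)
(.leaf ⟨0, 5532, 0, 0⟩))
(.node (.leaf ⟨1, 32, 32, 0⟩)
(.leaf ⟨2, 9325, 0, 0⟩)))
(.node (.node (.leaf ⟨1, 17, 33, 0⟩)
(.leaf ⟨1, 14, 22, 0⟩))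
(.node (.leaf ⟨0, 7207, 0, 0⟩)
(.leaf ⟨0, 14363, 0, 0⟩))))))
(.node (.node (.node (.node (.node (.node (.leaf ⟨0, 16160, 0, 0⟩)
(.leaf ⟨2, 12965, 0, 0⟩))
(.leaf ⟨0, 13961, 0, 0⟩))
(.node (.leaf ⟨0, 2167, 0, 0⟩)
(.leaf ⟨0, 15138, 0, 0⟩)))
(.node (.node (.leaf ⟨1, 88, 104, 0⟩)
(.leaf ⟨0, 1528, 0, 0⟩))
(.node (.leaf ⟨2, 9263, 0, 0⟩)
(.leaf ⟨0, 11029, 0, 0⟩))))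
(.node (.node (.node (.leaf ⟨1, 104, 81, 0⟩)
(.leaf ⟨0, 11303, 0, 0⟩))
(.node (.leaf ⟨1, 120, 108, 0⟩)
(.leaf ⟨0, 11744, 0, 0⟩)))
(.node (.node (.leaf ⟨1, 8, 4, 0⟩)
(.leaf ⟨0, 5616, 0, 0⟩))
(.node (.leaf ⟨1, 88, 100, 0⟩)
(.leaf ⟨0, 3041, 0, 0⟩)))))
(.node (.node (.node (.node (.leaf ⟨0, 9464, 0, 0⟩)
(.leaf ⟨1, 61, 31, 0⟩))
(.node (.leaf ⟨2, 13193, 0, 0⟩)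
(.leaf ⟨1, 3, 20, 0⟩)))
(.node (.node (.leaf ⟨0, 3952, 0, 0⟩)
(.leaf ⟨0, 15905, 0, 0⟩))
(.node (.leaf ⟨1, 16, 2, 0⟩)
(.leaf ⟨0, 13204, 0, 0⟩))))
(.node (.node (.node (.leaf ⟨2, 15107, 0, 0⟩)
(.leaf ⟨0, 3187, 0, 0⟩))
(.node (.leaf ⟨0, 7183, 0, 0⟩)
(.leaf ⟨1, 8, 1, 0⟩)))
(.node (.node (.leaf ⟨0, 10178, 0, 0⟩)
(.leaf ⟨1, 78, 102, 0⟩))
(.node (.leaf ⟨1, 13, 21, 0⟩)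
(.leaf ⟨0, 2419, 0, 0⟩))))))))
(.node (.node (.node (.node (.node (.node (.node (.node (.leaf ⟨2, 5199, 0, 0⟩)
(.leaf ⟨0, 14359, 0, 0⟩))
(.leaf ⟨0, 5604, 0, 0⟩))
(.node (.leaf ⟨0, 10177, 0, 0⟩)
(.leaf ⟨0, 3800, 0, 0⟩)))
(.node (.node (.leaf ⟨0, 15636, 0, 0⟩)
(.leaf ⟨1, 33, 3, 0⟩))
(.node (.leaf ⟨0, 13957, 0, 0⟩)
(.leaf ⟨2, 1087, 0, 0⟩))))
(.node (.node (.node (.leaf ⟨0, 14212, 0, 0⟩)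
(.leaf ⟨2, 15233, 0, 0⟩))
(.node (.leaf ⟨0, 6084, 0, 0⟩)
(.leaf ⟨1, 46, 108, 0⟩)))
(.node (.node (.leaf ⟨0, 7624, 0, 0⟩)
(.leaf ⟨0, 3442, 0, 0⟩))
(.node (.leaf ⟨0, 762, 0, 0⟩)
(.leaf ⟨2, 11335, 0, 0⟩)))))
(.node (.node (.node (.node (.leaf ⟨0, 11027, 0, 0⟩)
(.leaf ⟨0, 14485, 0, 0⟩))
(.node (.leaf ⟨1, 20, 9, 0⟩)
(.leaf ⟨0, 3190, 0, 0⟩)))
(.node (.node (.leaf ⟨1, 80, 40, 0⟩)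
(.leaf ⟨0, 1972, 0, 0⟩))
(.node (.leaf ⟨2, 6931, 0, 0⟩)
(.leaf ⟨2, 12883, 0, 0⟩))))
(.node (.node (.node (.leaf ⟨0, 1341, 0, 0⟩)
(.leaf ⟨0, 16064, 0, 0⟩))
(.node (.leaf ⟨1, 5, 5, 0⟩)
(.leaf ⟨0, 1273, 0, 0⟩)))
(.node (.node (.leaf ⟨1, 110, 118, 0⟩)
(.leaf ⟨0, 1398, 0, 0⟩))
(.node (.leaf ⟨2, 10271, 0, 0⟩)
(.leaf ⟨1, 13, 28, 0⟩))))))
(.node (.node (.node (.node (.node (.node (.leaf ⟨0, 12041, 0, 0⟩)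
(.leaf ⟨1, 107, 103, 0⟩))
(.leaf ⟨0, 3320, 0, 0⟩))
(.node (.leaf ⟨0, 12350, 0, 0⟩)
(.leaf ⟨0, 11811, 0, 0⟩)))
(.node (.node (.leaf ⟨0, 11279, 0, 0⟩)
(.leaf ⟨1, 67, 11, 0⟩))
(.node (.leaf ⟨0, 3568, 0, 0⟩)
(.leaf ⟨1, 3, 33, 0⟩))))
(.node (.node (.node (.leaf ⟨0, 9751, 0, 0⟩)
(.leaf ⟨2, 13201, 0, 0⟩))
(.node (.leaf ⟨1, 24, 96, 0⟩)
(.leaf ⟨1, 5, 3, 0⟩)))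
(.node (.node (.leaf ⟨1, 24, 17, 0⟩)
(.leaf ⟨0, 6036, 0, 0⟩))
(.node (.leaf ⟨1, 15, 46, 0⟩)
(.leaf ⟨1, 8, 2, 0⟩)))))
(.node (.node (.node (.node (.leaf ⟨0, 5368, 0, 0⟩)
(.leaf ⟨1, 104, 82, 0⟩))
(.node (.leaf ⟨1, 40, 36, 0⟩)
(.leaf ⟨0, 2509, 0, 0⟩)))
(.node (.node (.leaf ⟨0, 10775, 0, 0⟩)
(.leaf ⟨1, 45, 29, 0⟩))
(.node (.leaf ⟨2, 1231, 0, 0⟩)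
(.leaf ⟨2, 11787, 0, 0⟩))))
(.node (.node (.node (.leaf ⟨1, 17, 24, 0⟩)
(.leaf ⟨0, 3556, 0, 0⟩))
(.node (.leaf ⟨1, 96, 65, 0⟩)
(.leaf ⟨1, 56, 76, 0⟩)))
(.node (.node (.leaf ⟨1, 62, 47, 0⟩)
(.leaf ⟨2, 13837, 0, 0⟩))
(.node (.leaf ⟨0, 6050, 0, 0⟩)
(.leaf ⟨0, 3768, 0, 0⟩)))))))
(.node (.node (.node (.node (.node (.node (.node (.leaf ⟨2, 9303, 0, 0⟩)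
(.leaf ⟨0, 12381, 0, 0⟩))
(.leaf ⟨0, 10184, 0, 0⟩))
(.node (.leaf ⟨1, 104, 50, 0⟩)
(.leaf ⟨1, 120, 102, 0⟩)))
(.node (.node (.leaf ⟨1, 33, 9, 0⟩)
(.leaf ⟨1, 62, 118, 0⟩))
(.node (.leaf ⟨0, 9331, 0, 0⟩)
(.leaf ⟨0, 12748, 0, 0⟩))))
(.node (.node (.node (.leaf ⟨0, 15493, 0, 0⟩)
(.leaf ⟨1, 23, 23, 0⟩))
(.node (.leaf ⟨0, 988, 0, 0⟩)
(.leaf ⟨0, 7592, 0, 0⟩)))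
(.node (.node (.leaf ⟨0, 3182, 0, 0⟩)
(.leaf ⟨2, 12997, 0, 0⟩))
(.node (.leaf ⟨1, 122, 107, 0⟩)
(.leaf ⟨1, 35, 7, 0⟩)))))
(.node (.node (.node (.node (.leaf ⟨1, 114, 90, 0⟩)
(.leaf ⟨2, 10535, 0, 0⟩))
(.node (.leaf ⟨1, 56, 88, 0⟩)
(.leaf ⟨0, 3938, 0, 0⟩)))
(.node (.node (.leaf ⟨1, 103, 55, 0⟩)
(.leaf ⟨0, 10668, 0, 0⟩))
(.node (.leaf ⟨0, 10271, 0, 0⟩)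
(.leaf ⟨0, 15621, 0, 0⟩))))
(.node (.node (.node (.leaf ⟨2, 13835, 0, 0⟩)
(.leaf ⟨0, 9176, 0, 0⟩))
(.node (.leaf ⟨0, 9863, 0, 0⟩)
(.leaf ⟨0, 13972, 0, 0⟩)))
(.node (.node (.leaf ⟨0, 15371, 0, 0⟩)
(.leaf ⟨2, 13447, 0, 0⟩))
(.node (.leaf ⟨0, 4663, 0, 0⟩)
(.leaf ⟨1, 92, 108, 0⟩))))))
(.node (.node (.node (.node (.node (.leaf ⟨0, 13699, 0, 0⟩)
(.leaf ⟨0, 15878, 0, 0⟩))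
(.node (.leaf ⟨0, 2269, 0, 0⟩)
(.leaf ⟨0, 13208, 0, 0⟩)))
(.node (.node (.leaf ⟨0, 5779, 0, 0⟩)
(.leaf ⟨0, 13063, 0, 0⟩))
(.node (.leaf ⟨0, 6508, 0, 0⟩)
(.leaf ⟨1, 39, 23, 0⟩))))
(.node (.node (.node (.leaf ⟨0, 15745, 0, 0⟩)
(.leaf ⟨0, 2002, 0, 0⟩))
(.node (.leaf ⟨0, 12627, 0, 0⟩)
(.leaf ⟨1, 7, 41, 0⟩)))
(.node (.node (.leaf ⟨0, 5207, 0, 0⟩)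
(.leaf ⟨0, 14869, 0, 0⟩))
(.node (.leaf ⟨2, 15633, 0, 0⟩)
(.leaf ⟨2, 14375, 0, 0⟩)))))
(.node (.node (.node (.node (.leaf ⟨1, 17, 10, 0⟩)
(.leaf ⟨0, 8399, 0, 0⟩))
(.node (.leaf ⟨0, 13224, 0, 0⟩)
(.leaf ⟨0, 15506, 0, 0⟩)))
(.node (.node (.leaf ⟨0, 4002, 0, 0⟩)
(.leaf ⟨2, 12949, 0, 0⟩))
(.node (.leaf ⟨2, 1135, 0, 0⟩)
(.leaf ⟨0, 1135, 0, 0⟩))))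
(.node (.node (.node (.leaf ⟨0, 9359, 0, 0⟩)
(.leaf ⟨0, 3316, 0, 0⟩))
(.node (.leaf ⟨1, 65, 72, 0⟩)
(.leaf ⟨0, 9487, 0, 0⟩)))
(.node (.node (.leaf ⟨2, 15889, 0, 0⟩)
(.leaf ⟨0, 502, 0, 0⟩))
(.node (.leaf ⟨0, 8759, 0, 0⟩)
(.leaf ⟨2, 1119, 0, 0⟩))))))))))
(.node (.node (.node (.node (.node (.node (.node (.node (.node (.node (.leaf ⟨0, 2552, 0, 0⟩)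
(.leaf ⟨0, 5066, 0, 0⟩))
(.leaf ⟨0, 3193, 0, 0⟩))
(.node (.leaf ⟨0, 15367, 0, 0⟩)
(.leaf ⟨0, 2413, 0, 0⟩)))
(.node (.node (.leaf ⟨1, 31, 62, 0⟩)
(.leaf ⟨0, 6259, 0, 0⟩))
(.node (.leaf ⟨0, 9938, 0, 0⟩)
(.leaf ⟨0, 4476, 0, 0⟩))))
(.node (.node (.node (.leaf ⟨1, 96, 96, 0⟩)
(.leaf ⟨0, 8791, 0, 0⟩))
(.node (.leaf ⟨0, 9185, 0, 0⟩)
(.leaf ⟨0, 15109, 0, 0⟩)))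
(.node (.node (.leaf ⟨0, 7400, 0, 0⟩)
(.leaf ⟨2, 5151, 0, 0⟩))
(.node (.leaf ⟨2, 13957, 0, 0⟩)
(.leaf ⟨0, 13256, 0, 0⟩)))))
(.node (.node (.node (.node (.leaf ⟨0, 764, 0, 0⟩)
(.leaf ⟨2, 7105, 0, 0⟩))
(.node (.leaf ⟨0, 5181, 0, 0⟩)
(.leaf ⟨0, 7960, 0, 0⟩)))
(.node (.node (.leaf ⟨2, 14363, 0, 0⟩)
(.leaf ⟨2, 10775, 0, 0⟩))
(.node (.leaf ⟨0, 889, 0, 0⟩)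
(.leaf ⟨0, 6888, 0, 0⟩))))
(.node (.node (.node (.leaf ⟨0, 15128, 0, 0⟩)
(.leaf ⟨0, 2546, 0, 0⟩))
(.node (.leaf ⟨2, 15137, 0, 0⟩)
(.leaf ⟨2, 8311, 0, 0⟩)))
(.node (.node (.leaf ⟨0, 15625, 0, 0⟩)
(.leaf ⟨1, 56, 98, 0⟩))
(.node (.leaf ⟨1, 71, 51, 0⟩)
(.leaf ⟨0, 15952, 0, 0⟩))))))
(.node (.node (.node (.node (.node (.node (.leaf ⟨0, 2024, 0, 0⟩)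
(.leaf ⟨1, 88, 76, 0⟩))
(.leaf ⟨0, 6033, 0, 0⟩))
(.node (.leaf ⟨1, 12, 80, 0⟩)
(.leaf ⟨2, 6415, 0, 0⟩)))
(.node (.node (.leaf ⟨1, 73, 56, 0⟩)
(.leaf ⟨0, 10992, 0, 0⟩))
(.node (.leaf ⟨0, 8442, 0, 0⟩)
(.leaf ⟨0, 11216, 0, 0⟩))))
(.node (.node (.node (.leaf ⟨0, 2111, 0, 0⟩)
(.leaf ⟨1, 5, 10, 0⟩))
(.node (.leaf ⟨0, 1772, 0, 0⟩)
(.leaf ⟨0, 7049, 0, 0⟩)))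
(.node (.node (.leaf ⟨0, 5992, 0, 0⟩)
(.leaf ⟨0, 13249, 0, 0⟩))
(.node (.leaf ⟨1, 15, 39, 0⟩)
(.leaf ⟨0, 7873, 0, 0⟩)))))
(.node (.node (.node (.node (.leaf ⟨0, 3260, 0, 0⟩)
(.leaf ⟨1, 50, 98, 0⟩))
(.node (.leaf ⟨1, 100, 44, 0⟩)
(.leaf ⟨0, 5076, 0, 0⟩)))
(.node (.node (.leaf ⟨0, 15748, 0, 0⟩)
(.leaf ⟨0, 12162, 0, 0⟩))
(.node (.leaf ⟨0, 2924, 0, 0⟩)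
(.leaf ⟨0, 1211, 0, 0⟩))))
(.node (.node (.node (.leaf ⟨1, 83, 43, 0⟩)
(.leaf ⟨2, 1259, 0, 0⟩))
(.node (.leaf ⟨0, 1850, 0, 0⟩)
(.leaf ⟨1, 90, 116, 0⟩)))
(.node (.node (.leaf ⟨1, 5, 18, 0⟩)
(.leaf ⟨0, 127, 0, 0⟩))
(.node (.leaf ⟨0, 12375, 0, 0⟩)
(.leaf ⟨0, 3980, 0, 0⟩)))))))
(.node (.node (.node (.node (.node (.node (.node (.leaf ⟨1, 72, 68, 0⟩)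
(.leaf ⟨0, 13187, 0, 0⟩))
(.leaf ⟨0, 2531, 0, 0⟩))
(.node (.leaf ⟨0, 3810, 0, 0⟩)
(.leaf ⟨0, 13849, 0, 0⟩)))
(.node (.node (.leaf ⟨0, 11160, 0, 0⟩)
(.leaf ⟨1, 39, 27, 0⟩))
(.node (.leaf ⟨1, 19, 41, 0⟩)
(.leaf ⟨0, 3436, 0, 0⟩))))
(.node (.node (.node (.leaf ⟨1, 10, 3, 0⟩)
(.leaf ⟨1, 39, 15, 0⟩))
(.node (.leaf ⟨0, 15427, 0, 0⟩)
(.leaf ⟨1, 23, 75, 0⟩)))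
(.node (.node (.leaf ⟨0, 5354, 0, 0⟩)
(.leaf ⟨0, 13852, 0, 0⟩))
(.node (.leaf ⟨0, 2285, 0, 0⟩)
(.leaf ⟨0, 10355, 0, 0⟩)))))
(.node (.node (.node (.node (.leaf ⟨1, 51, 75, 0⟩)
(.leaf ⟨0, 15395, 0, 0⟩))
(.node (.leaf ⟨0, 12455, 0, 0⟩)
(.leaf ⟨0, 10791, 0, 0⟩)))
(.node (.node (.leaf ⟨1, 120, 101, 0⟩)
(.leaf ⟨0, 9704, 0, 0⟩))
(.node (.leaf ⟨1, 12, 12, 0⟩)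
(.leaf ⟨0, 14988, 0, 0⟩))))
(.node (.node (.node (.leaf ⟨0, 11720, 0, 0⟩)
(.leaf ⟨0, 3420, 0, 0⟩))
(.node (.leaf ⟨0, 4342, 0, 0⟩)
(.leaf ⟨0, 12072, 0, 0⟩)))
(.node (.node (.leaf ⟨1, 3, 10, 0⟩)
(.leaf ⟨2, 8303, 0, 0⟩))
(.node (.leaf ⟨1, 7, 25, 0⟩)
(.leaf ⟨0, 7904, 0, 0⟩))))))
(.node (.node (.node (.node (.node (.node (.leaf ⟨0, 2778, 0, 0⟩)
(.leaf ⟨2, 2615, 0, 0⟩))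
(.leaf ⟨0, 11170, 0, 0⟩))
(.node (.leaf ⟨0, 13970, 0, 0⟩)
(.leaf ⟨2, 12885, 0, 0⟩)))
(.node (.node (.leaf ⟨1, 124, 94, 0⟩)
(.leaf ⟨0, 2001, 0, 0⟩))
(.node (.leaf ⟨1, 22, 11, 0⟩)
(.leaf ⟨0, 14725, 0, 0⟩))))
(.node (.node (.node (.leaf ⟨0, 6896, 0, 0⟩)
(.leaf ⟨0, 14224, 0, 0⟩))
(.node (.leaf ⟨1, 47, 103, 0⟩)
(.leaf ⟨1, 38, 7, 0⟩)))
(.node (.node (.leaf ⟨0, 7792, 0, 0⟩)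
(.leaf ⟨1, 24, 40, 0⟩))
(.node (.leaf ⟨0, 9700, 0, 0⟩)
(.leaf ⟨0, 10302, 0, 0⟩)))))
(.node (.node (.node (.node (.leaf ⟨0, 5578, 0, 0⟩)
(.leaf ⟨1, 2, 1, 0⟩))
(.node (.leaf ⟨0, 5214, 0, 0⟩)
(.leaf ⟨1, 19, 35, 0⟩)))
(.node (.node (.leaf ⟨1, 108, 101, 0⟩)
(.leaf ⟨0, 501, 0, 0⟩))
(.node (.leaf ⟨0, 13081, 0, 0⟩)
(.leaf ⟨0, 14477, 0, 0⟩))))
(.node (.node (.node (.leaf ⟨1, 15, 53, 0⟩)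
(.leaf ⟨0, 9278, 0, 0⟩))
(.node (.leaf ⟨0, 12949, 0, 0⟩)
(.leaf ⟨1, 106, 101, 0⟩)))
(.node (.node (.leaf ⟨0, 5263, 0, 0⟩)
(.leaf ⟨0, 6251, 0, 0⟩))
(.node (.leaf ⟨0, 3884, 0, 0⟩)
(.leaf ⟨0, 13761, 0, 0⟩))))))))
(.node (.node (.node (.node (.node (.node (.node (.node (.leaf ⟨1, 55, 107, 0⟩)
(.leaf ⟨0, 12815, 0, 0⟩))
(.leaf ⟨0, 12995, 0, 0⟩))
(.node (.leaf ⟨0, 14387, 0, 0⟩)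
(.leaf ⟨0, 2993, 0, 0⟩)))
(.node (.node (.leaf ⟨0, 6739, 0, 0⟩)
(.leaf ⟨1, 28, 88, 0⟩))
(.node (.leaf ⟨0, 12878, 0, 0⟩)
(.leaf ⟨0, 14152, 0, 0⟩))))
(.node (.node (.node (.leaf ⟨0, 13850, 0, 0⟩)
(.leaf ⟨0, 1387, 0, 0⟩))
(.node (.leaf ⟨0, 8066, 0, 0⟩)
(.leaf ⟨0, 13137, 0, 0⟩)))
(.node (.node (.leaf ⟨1, 88, 73, 0⟩)
(.leaf ⟨0, 14883, 0, 0⟩))
(.node (.leaf ⟨0, 10019, 0, 0⟩)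
(.leaf ⟨2, 13831, 0, 0⟩)))))
(.node (.node (.node (.node (.leaf ⟨2, 14365, 0, 0⟩)
(.leaf ⟨2, 12559, 0, 0⟩))
(.node (.leaf ⟨0, 2794, 0, 0⟩)
(.leaf ⟨0, 11156, 0, 0⟩)))
(.node (.node (.leaf ⟨0, 15184, 0, 0⟩)
(.leaf ⟨0, 9875, 0, 0⟩))
(.node (.leaf ⟨0, 2359, 0, 0⟩)
(.leaf ⟨2, 2171, 0, 0⟩))))
(.node (.node (.node (.leaf ⟨1, 7, 28, 0⟩)
(.leaf ⟨0, 5391, 0, 0⟩))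
(.node (.leaf ⟨0, 5241, 0, 0⟩)
(.leaf ⟨0, 7060, 0, 0⟩)))
(.node (.node (.leaf ⟨0, 13366, 0, 0⟩)
(.leaf ⟨2, 13891, 0, 0⟩))
(.node (.leaf ⟨0, 6415, 0, 0⟩)
(.leaf ⟨1, 12, 5, 0⟩))))))
(.node (.node (.node (.node (.node (.node (.leaf ⟨2, 12343, 0, 0⟩)
(.leaf ⟨1, 2, 32, 0⟩))
(.leaf ⟨1, 39, 54, 0⟩))
(.node (.leaf ⟨0, 8479, 0, 0⟩)
(.leaf ⟨0, 14176, 0, 0⟩)))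
(.node (.node (.leaf ⟨0, 3258, 0, 0⟩)
(.leaf ⟨0, 14874, 0, 0⟩))
(.node (.leaf ⟨0, 3290, 0, 0⟩)
(.leaf ⟨2, 15395, 0, 0⟩))))
(.node (.node (.node (.leaf ⟨1, 50, 104, 0⟩)
(.leaf ⟨0, 6388, 0, 0⟩))
(.node (.leaf ⟨2, 1261, 0, 0⟩)
(.leaf ⟨2, 2159, 0, 0⟩)))
(.node (.node (.leaf ⟨1, 61, 55, 0⟩)
(.leaf ⟨0, 4036, 0, 0⟩))
(.node (.leaf ⟨2, 12853, 0, 0⟩)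
(.leaf ⟨1, 3, 65, 0⟩)))))
(.node (.node (.node (.node (.leaf ⟨0, 7106, 0, 0⟩)
(.leaf ⟨1, 94, 118, 0⟩))
(.node (.leaf ⟨0, 12319, 0, 0⟩)
(.leaf ⟨0, 1486, 0, 0⟩)))
(.node (.node (.leaf ⟨2, 14381, 0, 0⟩)
(.leaf ⟨2, 12443, 0, 0⟩))
(.node (.leaf ⟨2, 14915, 0, 0⟩)
(.leaf ⟨0, 10391, 0, 0⟩))))
(.node (.node (.node (.leaf ⟨0, 14613, 0, 0⟩)
(.leaf ⟨0, 7826, 0, 0⟩))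
(.node (.leaf ⟨0, 8682, 0, 0⟩)
(.leaf ⟨2, 14979, 0, 0⟩)))
(.node (.node (.leaf ⟨1, 16, 1, 0⟩)
(.leaf ⟨1, 69, 11, 0⟩))
(.node (.leaf ⟨0, 1270, 0, 0⟩)
(.leaf ⟨0, 1524, 0, 0⟩)))))))
(.node (.node (.node (.node (.node (.node (.node (.leaf ⟨0, 7500, 0, 0⟩)
(.leaf ⟨0, 10301, 0, 0⟩))
(.leaf ⟨0, 5151, 0, 0⟩))
(.node (.leaf ⟨1, 27, 27, 0⟩)
(.leaf ⟨1, 106, 114, 0⟩)))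
(.node (.node (.leaf ⟨0, 1906, 0, 0⟩)
(.leaf ⟨0, 15494, 0, 0⟩))
(.node (.leaf ⟨1, 105, 105, 0⟩)
(.leaf ⟨0, 16016, 0, 0⟩))))
(.node (.node (.node (.leaf ⟨0, 2533, 0, 0⟩)
(.leaf ⟨1, 39, 45, 0⟩))
(.node (.leaf ⟨0, 15776, 0, 0⟩)
(.leaf ⟨0, 14471, 0, 0⟩)))
(.node (.node (.leaf ⟨2, 15877, 0, 0⟩)
(.leaf ⟨0, 1002, 0, 0⟩))
(.node (.leaf ⟨0, 1259, 0, 0⟩)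
(.leaf ⟨0, 13958, 0, 0⟩)))))
(.node (.node (.node (.node (.leaf ⟨0, 4333, 0, 0⟩)
(.leaf ⟨2, 1199, 0, 0⟩))
(.node (.leaf ⟨0, 493, 0, 0⟩)
(.leaf ⟨0, 3896, 0, 0⟩)))
(.node (.node (.leaf ⟨0, 10413, 0, 0⟩)
(.leaf ⟨0, 11952, 0, 0⟩))
(.node (.leaf ⟨0, 1777, 0, 0⟩)
(.leaf ⟨0, 2425, 0, 0⟩))))
(.node (.node (.node (.leaf ⟨0, 15056, 0, 0⟩)
(.leaf ⟨1, 38, 19, 0⟩))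
(.node (.leaf ⟨0, 6028, 0, 0⟩)
(.leaf ⟨0, 11672, 0, 0⟩)))
(.node (.node (.leaf ⟨0, 13845, 0, 0⟩)
(.leaf ⟨1, 55, 91, 0⟩))
(.node (.leaf ⟨0, 491, 0, 0⟩)
(.leaf ⟨0, 8763, 0, 0⟩))))))
(.node (.node (.node (.node (.node (.node (.leaf ⟨2, 12431, 0, 0⟩)
(.leaf ⟨0, 12000, 0, 0⟩))
(.leaf ⟨0, 1724, 0, 0⟩))
(.node (.leaf ⟨2, 5907, 0, 0⟩)
(.leaf ⟨1, 23, 30, 0⟩)))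
(.node (.node (.leaf ⟨0, 16136, 0, 0⟩)
(.leaf ⟨0, 3444, 0, 0⟩))
(.node (.leaf ⟨1, 27, 29, 0⟩)
(.leaf ⟨0, 4850, 0, 0⟩))))
(.node (.node (.node (.leaf ⟨1, 40, 40, 0⟩)
(.leaf ⟨1, 104, 76, 0⟩))
(.node (.leaf ⟨0, 1964, 0, 0⟩)
(.leaf ⟨1, 44, 52, 0⟩)))
(.node (.node (.leaf ⟨1, 36, 80, 0⟩)
(.leaf ⟨2, 13461, 0, 0⟩))
(.node (.leaf ⟨0, 3512, 0, 0⟩)
(.leaf ⟨2, 14859, 0, 0⟩)))))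
(.node (.node (.node (.node (.leaf ⟨1, 96, 80, 0⟩)
(.leaf ⟨0, 2537, 0, 0⟩))
(.node (.leaf ⟨2, 2279, 0, 0⟩)
(.leaf ⟨0, 14216, 0, 0⟩)))
(.node (.node (.leaf ⟨2, 10295, 0, 0⟩)
(.leaf ⟨1, 40, 80, 0⟩))
(.node (.leaf ⟨0, 1150, 0, 0⟩)
(.leaf ⟨2, 12349, 0, 0⟩))))
(.node (.node (.node (.leaf ⟨1, 9, 9, 0⟩)
(.leaf ⟨0, 4318, 0, 0⟩))
(.node (.leaf ⟨0, 14104, 0, 0⟩)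
(.leaf ⟨0, 8311, 0, 0⟩)))
(.node (.node (.leaf ⟨0, 11307, 0, 0⟩)
(.leaf ⟨0, 8855, 0, 0⟩))
(.node (.leaf ⟨0, 9303, 0, 0⟩)
(.leaf ⟨1, 96, 48, 0⟩)))))))))
(.node (.node (.node (.node (.node (.node (.node (.node (.node (.leaf ⟨0, 5907, 0, 0⟩)
(.leaf ⟨0, 9390, 0, 0⟩))
(.leaf ⟨1, 98, 112, 0⟩))
(.node (.leaf ⟨0, 15169, 0, 0⟩)
(.leaf ⟨0, 10511, 0, 0⟩)))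
(.node (.node (.leaf ⟨1, 45, 15, 0⟩)
(.leaf ⟨0, 12161, 0, 0⟩))
(.node (.leaf ⟨1, 43, 39, 0⟩)
(.leaf ⟨0, 5548, 0, 0⟩))))
(.node (.node (.node (.leaf ⟨0, 4004, 0, 0⟩)
(.leaf ⟨1, 19, 25, 0⟩))
(.node (.leaf ⟨0, 3189, 0, 0⟩)
(.leaf ⟨0, 9495, 0, 0⟩)))
(.node (.node (.leaf ⟨1, 99, 120, 0⟩)
(.leaf ⟨0, 2932, 0, 0⟩))
(.node (.leaf ⟨0, 9644, 0, 0⟩)
(.leaf ⟨0, 5468, 0, 0⟩)))))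
(.node (.node (.node (.node (.leaf ⟨0, 11310, 0, 0⟩)
(.leaf ⟨0, 16129, 0, 0⟩))
(.node (.leaf ⟨1, 3, 24, 0⟩)
(.leaf ⟨1, 90, 120, 0⟩)))
(.node (.node (.leaf ⟨0, 8351, 0, 0⟩)
(.leaf ⟨1, 79, 31, 0⟩))
(.node (.leaf ⟨0, 2522, 0, 0⟩)
(.leaf ⟨2, 15367, 0, 0⟩))))
(.node (.node (.node (.leaf ⟨1, 7, 49, 0⟩)
(.leaf ⟨2, 9247, 0, 0⟩))
(.node (.leaf ⟨0, 5969, 0, 0⟩)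
(.leaf ⟨0, 10364, 0, 0⟩)))
(.node (.node (.leaf ⟨0, 13893, 0, 0⟩)
(.leaf ⟨0, 6000, 0, 0⟩))
(.node (.leaf ⟨0, 9743, 0, 0⟩)
(.leaf ⟨1, 62, 110, 0⟩))))))
(.node (.node (.node (.node (.node (.node (.leaf ⟨0, 3762, 0, 0⟩)
(.leaf ⟨0, 10383, 0, 0⟩))
(.leaf ⟨1, 35, 11, 0⟩))
(.node (.leaf ⟨0, 3434, 0, 0⟩)
(.leaf ⟨1, 44, 100, 0⟩)))
(.node (.node (.leaf ⟨1, 82, 104, 0⟩)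
(.leaf ⟨0, 1905, 0, 0⟩))
(.node (.leaf ⟨1, 102, 108, 0⟩)
(.leaf ⟨1, 92, 86, 0⟩))))
(.node (.node (.node (.leaf ⟨2, 9275, 0, 0⟩)
(.leaf ⟨1, 58, 108, 0⟩))
(.node (.leaf ⟨0, 13358, 0, 0⟩)
(.leaf ⟨2, 12347, 0, 0⟩)))
(.node (.node (.leaf ⟨1, 62, 103, 0⟩)
(.leaf ⟨2, 13849, 0, 0⟩))
(.node (.leaf ⟨0, 3986, 0, 0⟩)
(.leaf ⟨0, 13579, 0, 0⟩)))))
(.node (.node (.node (.node (.leaf ⟨0, 5182, 0, 0⟩)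
(.leaf ⟨1, 3, 5, 0⟩))
(.node (.leaf ⟨1, 112, 104, 0⟩)
(.leaf ⟨0, 13252, 0, 0⟩)))
(.node (.node (.leaf ⟨1, 107, 47, 0⟩)
(.leaf ⟨2, 623, 0, 0⟩))
(.node (.leaf ⟨2, 14611, 0, 0⟩)
(.leaf ⟨1, 122, 94, 0⟩))))
(.node (.node (.node (.leaf ⟨1, 3, 18, 0⟩)
(.leaf ⟨0, 14732, 0, 0⟩))
(.node (.leaf ⟨0, 9161, 0, 0⟩)
(.leaf ⟨0, 1898, 0, 0⟩)))
(.node (.node (.leaf ⟨0, 367, 0, 0⟩)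
(.leaf ⟨0, 9991, 0, 0⟩))
(.node (.leaf ⟨0, 3794, 0, 0⟩)
(.leaf ⟨1, 4, 4, 0⟩)))))))
(.node (.node (.node (.node (.node (.node (.node (.leaf ⟨2, 367, 0, 0⟩)
(.leaf ⟨0, 13075, 0, 0⟩))
(.leaf ⟨2, 13335, 0, 0⟩))
(.node (.leaf ⟨0, 4221, 0, 0⟩)
(.leaf ⟨0, 1507, 0, 0⟩)))
(.node (.node (.leaf ⟨2, 14885, 0, 0⟩)
(.leaf ⟨0, 12947, 0, 0⟩))
(.node (.leaf ⟨0, 15381, 0, 0⟩)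
(.leaf ⟨2, 14351, 0, 0⟩))))
(.node (.node (.node (.leaf ⟨1, 106, 106, 0⟩)
(.leaf ⟨0, 2291, 0, 0⟩))
(.node (.leaf ⟨1, 80, 65, 0⟩)
(.leaf ⟨1, 99, 108, 0⟩)))
(.node (.node (.leaf ⟨0, 2174, 0, 0⟩)
(.leaf ⟨0, 12823, 0, 0⟩))
(.node (.leaf ⟨0, 6175, 0, 0⟩)
(.leaf ⟨0, 12335, 0, 0⟩)))))
(.node (.node (.node (.node (.leaf ⟨1, 106, 90, 0⟩)
(.leaf ⟨1, 37, 25, 0⟩))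
(.node (.leaf ⟨0, 13846, 0, 0⟩)
(.leaf ⟨2, 12815, 0, 0⟩)))
(.node (.node (.leaf ⟨2, 15881, 0, 0⟩)
(.leaf ⟨0, 5592, 0, 0⟩))
(.node (.leaf ⟨0, 14483, 0, 0⟩)
(.leaf ⟨1, 4, 32, 0⟩))))
(.node (.node (.node (.leaf ⟨0, 3482, 0, 0⟩)
(.leaf ⟨1, 43, 23, 0⟩))
(.node (.leaf ⟨1, 44, 56, 0⟩)
(.leaf ⟨1, 53, 15, 0⟩)))
(.node (.node (.leaf ⟨0, 15808, 0, 0⟩)
(.leaf ⟨0, 13454, 0, 0⟩))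
(.node (.leaf ⟨1, 47, 47, 0⟩)
(.leaf ⟨0, 10003, 0, 0⟩))))))
(.node (.node (.node (.node (.node (.node (.leaf ⟨0, 12619, 0, 0⟩)
(.leaf ⟨0, 1994, 0, 0⟩))
(.leaf ⟨0, 13459, 0, 0⟩))
(.node (.leaf ⟨1, 67, 7, 0⟩)
(.leaf ⟨0, 6520, 0, 0⟩)))
(.node (.node (.leaf ⟨1, 36, 96, 0⟩)
(.leaf ⟨1, 108, 54, 0⟩))
(.node (.leaf ⟨0, 877, 0, 0⟩)
(.leaf ⟨2, 13905, 0, 0⟩))))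
(.node (.node (.node (.leaf ⟨0, 16004, 0, 0⟩)
(.leaf ⟨0, 8016, 0, 0⟩))
(.node (.leaf ⟨0, 13831, 0, 0⟩)
(.leaf ⟨2, 2111, 0, 0⟩)))
(.node (.node (.leaf ⟨0, 1010, 0, 0⟩)
(.leaf ⟨0, 12391, 0, 0⟩))
(.node (.leaf ⟨2, 8255, 0, 0⟩)
(.leaf ⟨0, 4439, 0, 0⟩)))))
(.node (.node (.node (.node (.leaf ⟨1, 107, 79, 0⟩)
(.leaf ⟨0, 7691, 0, 0⟩))
(.node (.leaf ⟨2, 7183, 0, 0⟩)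
(.leaf ⟨2, 2283, 0, 0⟩)))
(.node (.node (.leaf ⟨0, 15236, 0, 0⟩)
(.leaf ⟨0, 8367, 0, 0⟩))
(.node (.leaf ⟨2, 1509, 0, 0⟩)
(.leaf ⟨2, 5229, 0, 0⟩))))
(.node (.node (.node (.leaf ⟨0, 15122, 0, 0⟩)
(.leaf ⟨2, 14083, 0, 0⟩))
(.node (.leaf ⟨1, 88, 112, 0⟩)
(.leaf ⟨0, 3985, 0, 0⟩)))
(.node (.node (.leaf ⟨0, 9188, 0, 0⟩)
(.leaf ⟨0, 12367, 0, 0⟩))
(.node (.leaf ⟨1, 67, 25, 0⟩)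
(.leaf ⟨1, 24, 3, 0⟩))))))))
(.node (.node (.node (.node (.node (.node (.node (.node (.leaf ⟨0, 10005, 0, 0⟩)
(.leaf ⟨1, 112, 56, 0⟩))
(.leaf ⟨0, 14085, 0, 0⟩))
(.node (.leaf ⟨1, 40, 24, 0⟩)
(.leaf ⟨1, 51, 83, 0⟩)))
(.node (.node (.leaf ⟨0, 15505, 0, 0⟩)
(.leaf ⟨0, 1401, 0, 0⟩))
(.node (.leaf ⟨0, 13835, 0, 0⟩)
(.leaf ⟨1, 90, 102, 0⟩))))
(.node (.node (.node (.leaf ⟨0, 12830, 0, 0⟩)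
(.leaf ⟨1, 72, 40, 0⟩))
(.node (.leaf ⟨1, 27, 71, 0⟩)
(.leaf ⟨2, 13843, 0, 0⟩)))
(.node (.node (.leaf ⟨1, 64, 64, 0⟩)
(.leaf ⟨0, 3056, 0, 0⟩))
(.node (.leaf ⟨0, 4572, 0, 0⟩)
(.leaf ⟨0, 14898, 0, 0⟩)))))
(.node (.node (.node (.node (.leaf ⟨0, 7505, 0, 0⟩)
(.leaf ⟨0, 9326, 0, 0⟩))
(.node (.leaf ⟨0, 2017, 0, 0⟩)
(.leaf ⟨1, 90, 108, 0⟩)))
(.node (.node (.leaf ⟨1, 21, 21, 0⟩)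
(.leaf ⟨0, 4033, 0, 0⟩))
(.node (.leaf ⟨2, 12381, 0, 0⟩)
(.leaf ⟨1, 16, 16, 0⟩))))
(.node (.node (.node (.leaf ⟨2, 7701, 0, 0⟩)
(.leaf ⟨0, 9404, 0, 0⟩))
(.node (.leaf ⟨1, 31, 61, 0⟩)
(.leaf ⟨1, 67, 26, 0⟩)))
(.node (.node (.leaf ⟨2, 14897, 0, 0⟩)
(.leaf ⟨0, 14390, 0, 0⟩))
(.node (.leaf ⟨1, 19, 42, 0⟩)
(.leaf ⟨2, 12379, 0, 0⟩))))))
(.node (.node (.node (.node (.node (.node (.leaf ⟨0, 8072, 0, 0⟩)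
(.leaf ⟨0, 1912, 0, 0⟩))
(.leaf ⟨0, 1595, 0, 0⟩))
(.node (.leaf ⟨0, 3305, 0, 0⟩)
(.leaf ⟨1, 116, 120, 0⟩)))
(.node (.node (.leaf ⟨0, 8004, 0, 0⟩)
(.leaf ⟨0, 9186, 0, 0⟩))
(.node (.leaf ⟨2, 1513, 0, 0⟩)
(.leaf ⟨0, 3044, 0, 0⟩))))
(.node (.node (.node (.leaf ⟨1, 48, 68, 0⟩)
(.leaf ⟨0, 4346, 0, 0⟩))
(.node (.leaf ⟨0, 2986, 0, 0⟩)
(.leaf ⟨0, 14209, 0, 0⟩)))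
(.node (.node (.leaf ⟨2, 10391, 0, 0⟩)
(.leaf ⟨0, 7057, 0, 0⟩))
(.node (.leaf ⟨0, 1373, 0, 0⟩)
(.leaf ⟨0, 6040, 0, 0⟩)))))
(.node (.node (.node (.node (.leaf ⟨1, 40, 72, 0⟩)
(.leaf ⟨0, 9995, 0, 0⟩))
(.node (.leaf ⟨0, 1087, 0, 0⟩)
(.leaf ⟨0, 10180, 0, 0⟩)))
(.node (.node (.leaf ⟨1, 42, 104, 0⟩)
(.leaf ⟨0, 10519, 0, 0⟩))
(.node (.leaf ⟨0, 3756, 0, 0⟩)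
(.leaf ⟨1, 112, 50, 0⟩))))
(.node (.node (.node (.leaf ⟨1, 39, 57, 0⟩)
(.leaf ⟨1, 21, 11, 0⟩))
(.node (.leaf ⟨2, 1497, 0, 0⟩)
(.leaf ⟨0, 5403, 0, 0⟩)))
(.node (.node (.leaf ⟨2, 9319, 0, 0⟩)
(.leaf ⟨1, 15, 15, 0⟩))
(.node (.leaf ⟨0, 10915, 0, 0⟩)
(.leaf ⟨0, 3484, 0, 0⟩)))))))
(.node (.node (.node (.node (.node (.node (.node (.leaf ⟨1, 32, 2, 0⟩)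
(.leaf ⟨0, 15048, 0, 0⟩))
(.leaf ⟨0, 2300, 0, 0⟩))
(.node (.leaf ⟨0, 13335, 0, 0⟩)
(.leaf ⟨1, 104, 100, 0⟩)))
(.node (.node (.leaf ⟨2, 14097, 0, 0⟩)
(.leaf ⟨0, 6247, 0, 0⟩))
(.node (.leaf ⟨2, 13217, 0, 0⟩)
(.leaf ⟨0, 2008, 0, 0⟩))))
(.node (.node (.node (.leaf ⟨0, 14617, 0, 0⟩)
(.leaf ⟨0, 4586, 0, 0⟩))
(.node (.leaf ⟨0, 446, 0, 0⟩)
(.leaf ⟨2, 15381, 0, 0⟩)))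
(.node (.node (.leaf ⟨0, 13123, 0, 0⟩)
(.leaf ⟨0, 14097, 0, 0⟩))
(.node (.leaf ⟨0, 8684, 0, 0⟩)
(.leaf ⟨0, 5090, 0, 0⟩)))))
(.node (.node (.node (.node (.leaf ⟨0, 14421, 0, 0⟩)
(.leaf ⟨1, 48, 36, 0⟩))
(.node (.leaf ⟨1, 107, 110, 0⟩)
(.leaf ⟨2, 501, 0, 0⟩)))
(.node (.node (.leaf ⟨0, 15009, 0, 0⟩)
(.leaf ⟨0, 4048, 0, 0⟩))
(.node (.leaf ⟨1, 66, 24, 0⟩)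
(.leaf ⟨0, 9712, 0, 0⟩))))
(.node (.node (.node (.leaf ⟨1, 56, 112, 0⟩)
(.leaf ⟨0, 15248, 0, 0⟩))
(.node (.leaf ⟨1, 4, 16, 0⟩)
(.leaf ⟨0, 7939, 0, 0⟩)))
(.node (.node (.leaf ⟨0, 1231, 0, 0⟩)
(.leaf ⟨0, 8983, 0, 0⟩))
(.node (.leaf ⟨0, 14272, 0, 0⟩)
(.leaf ⟨1, 33, 17, 0⟩))))))
(.node (.node (.node (.node (.node (.leaf ⟨0, 12939, 0, 0⟩)
(.leaf ⟨1, 110, 94, 0⟩))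
(.node (.leaf ⟨0, 1274, 0, 0⟩)
(.leaf ⟨2, 493, 0, 0⟩)))
(.node (.node (.leaf ⟨0, 1246, 0, 0⟩)
(.leaf ⟨1, 19, 50, 0⟩))
(.node (.leaf ⟨1, 3, 34, 0⟩)
(.leaf ⟨1, 29, 23, 0⟩))))
(.node (.node (.node (.leaf ⟨0, 5242, 0, 0⟩)
(.leaf ⟨1, 34, 80, 0⟩))
(.node (.leaf ⟨0, 14979, 0, 0⟩)
(.leaf ⟨0, 6632, 0, 0⟩)))
(.node (.node (.leaf ⟨0, 7197, 0, 0⟩)
(.leaf ⟨1, 1, 4, 0⟩))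
(.node (.leaf ⟨2, 10327, 0, 0⟩)
(.leaf ⟨1, 35, 25, 0⟩)))))
(.node (.node (.node (.node (.leaf ⟨2, 13351, 0, 0⟩)
(.leaf ⟨0, 8065, 0, 0⟩))
(.node (.leaf ⟨1, 73, 112, 0⟩)
(.leaf ⟨0, 5227, 0, 0⟩)))
(.node (.node (.leaf ⟨0, 1852, 0, 0⟩)
(.leaf ⟨0, 14993, 0, 0⟩))
(.node (.leaf ⟨1, 0, 0, 0⟩)
(.leaf ⟨1, 55, 55, 0⟩))))
(.node (.node (.node (.leaf ⟨2, 1149, 0, 0⟩)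
(.leaf ⟨1, 80, 66, 0⟩))
(.node (.leaf ⟨0, 12615, 0, 0⟩)
(.leaf ⟨0, 4600, 0, 0⟩)))
(.node (.node (.leaf ⟨1, 47, 62, 0⟩)
(.leaf ⟨0, 8692, 0, 0⟩))
(.node (.leaf ⟨1, 17, 18, 0⟩)
(.leaf ⟨1, 21, 35, 0⟩)))))))))))
(.node (.node (.node (.node (.node (.node (.node (.node (.node (.node (.node (.leaf ⟨0, 5560, 0, 0⟩)
(.leaf ⟨0, 1513, 0, 0⟩))
(.leaf ⟨2, 10299, 0, 0⟩))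
(.node (.leaf ⟨0, 7984, 0, 0⟩)
(.leaf ⟨0, 14128, 0, 0⟩)))
(.node (.node (.leaf ⟨2, 8751, 0, 0⟩)
(.leaf ⟨0, 11496, 0, 0⟩))
(.node (.leaf ⟨2, 11153, 0, 0⟩)
(.leaf ⟨0, 12843, 0, 0⟩))))
(.node (.node (.node (.leaf ⟨0, 3103, 0, 0⟩)
(.leaf ⟨2, 505, 0, 0⟩))
(.node (.leaf ⟨0, 7874, 0, 0⟩)
(.leaf ⟨1, 110, 103, 0⟩)))
(.node (.node (.leaf ⟨2, 10511, 0, 0⟩)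
(.leaf ⟨1, 92, 120, 0⟩))
(.node (.leaf ⟨0, 12851, 0, 0⟩)
(.leaf ⟨0, 2173, 0, 0⟩)))))
(.node (.node (.node (.node (.leaf ⟨1, 78, 108, 0⟩)
(.leaf ⟨1, 107, 31, 0⟩))
(.node (.leaf ⟨0, 12382, 0, 0⟩)
(.leaf ⟨0, 4334, 0, 0⟩)))
(.node (.node (.leaf ⟨0, 14389, 0, 0⟩)
(.leaf ⟨0, 3048, 0, 0⟩))
(.node (.leaf ⟨0, 13955, 0, 0⟩)
(.leaf ⟨0, 9642, 0, 0⟩))))
(.node (.node (.node (.leaf ⟨0, 9164, 0, 0⟩)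
(.leaf ⟨0, 2171, 0, 0⟩))
(.node (.leaf ⟨2, 10301, 0, 0⟩)
(.leaf ⟨0, 10334, 0, 0⟩)))
(.node (.node (.leaf ⟨0, 6199, 0, 0⟩)
(.leaf ⟨1, 51, 43, 0⟩))
(.node (.leaf ⟨1, 58, 120, 0⟩)
(.leaf ⟨1, 6, 3, 0⟩))))))
(.node (.node (.node (.node (.node (.node (.leaf ⟨0, 5895, 0, 0⟩)
(.leaf ⟨1, 98, 104, 0⟩))
(.leaf ⟨0, 254, 0, 0⟩))
(.node (.leaf ⟨2, 12499, 0, 0⟩)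
(.leaf ⟨0, 15374, 0, 0⟩)))
(.node (.node (.leaf ⟨0, 12997, 0, 0⟩)
(.leaf ⟨0, 13451, 0, 0⟩))
(.node (.leaf ⟨0, 4222, 0, 0⟩)
(.leaf ⟨2, 1001, 0, 0⟩))))
(.node (.node (.node (.leaf ⟨2, 2285, 0, 0⟩)
(.leaf ⟨1, 56, 84, 0⟩))
(.node (.leaf ⟨2, 10003, 0, 0⟩)
(.leaf ⟨0, 381, 0, 0⟩)))
(.node (.node (.leaf ⟨0, 9319, 0, 0⟩)
(.leaf ⟨1, 76, 100, 0⟩))
(.node (.leaf ⟨0, 1468, 0, 0⟩)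
(.leaf ⟨2, 13587, 0, 0⟩)))))
(.node (.node (.node (.node (.leaf ⟨2, 2167, 0, 0⟩)
(.leaf ⟨1, 2, 2, 0⟩))
(.node (.leaf ⟨1, 102, 116, 0⟩)
(.leaf ⟨0, 13194, 0, 0⟩)))
(.node (.node (.leaf ⟨0, 1976, 0, 0⟩)
(.leaf ⟨1, 54, 39, 0⟩))
(.node (.leaf ⟨0, 7222, 0, 0⟩)
(.leaf ⟨0, 1993, 0, 0⟩))))
(.node (.node (.node (.leaf ⟨2, 13189, 0, 0⟩)
(.leaf ⟨0, 6872, 0, 0⟩))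
(.node (.leaf ⟨1, 103, 118, 0⟩)
(.leaf ⟨0, 14478, 0, 0⟩)))
(.node (.node (.leaf ⟨1, 24, 72, 0⟩)
(.leaf ⟨0, 14083, 0, 0⟩))
(.node (.leaf ⟨0, 3433, 0, 0⟩)
(.leaf ⟨0, 8527, 0, 0⟩)))))))
(.node (.node (.node (.node (.node (.node (.node (.leaf ⟨0, 8008, 0, 0⟩)
(.leaf ⟨1, 28, 100, 0⟩))
(.leaf ⟨2, 15397, 0, 0⟩))
(.node (.leaf ⟨0, 15882, 0, 0⟩)
(.leaf ⟨1, 18, 6, 0⟩)))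
(.node (.node (.leaf ⟨2, 3017, 0, 0⟩)
(.leaf ⟨0, 5235, 0, 0⟩))
(.node (.leaf ⟨0, 2397, 0, 0⟩)
(.leaf ⟨1, 16, 64, 0⟩))))
(.node (.node (.node (.leaf ⟨0, 15696, 0, 0⟩)
(.leaf ⟨0, 15041, 0, 0⟩))
(.node (.leaf ⟨0, 1651, 0, 0⟩)
(.leaf ⟨0, 892, 0, 0⟩)))
(.node (.node (.leaf ⟨2, 13893, 0, 0⟩)
(.leaf ⟨1, 88, 82, 0⟩))
(.node (.leaf ⟨0, 1521, 0, 0⟩)
(.leaf ⟨0, 14089, 0, 0⟩)))))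
(.node (.node (.node (.node (.leaf ⟨0, 10331, 0, 0⟩)
(.leaf ⟨1, 101, 116, 0⟩))
(.node (.leaf ⟨1, 6, 9, 0⟩)
(.leaf ⟨0, 1009, 0, 0⟩)))
(.node (.node (.leaf ⟨1, 7, 50, 0⟩)
(.leaf ⟨0, 14113, 0, 0⟩))
(.node (.leaf ⟨1, 21, 25, 0⟩)
(.leaf ⟨0, 9755, 0, 0⟩))))
(.node (.node (.node (.leaf ⟨0, 10700, 0, 0⟩)
(.leaf ⟨1, 92, 92, 0⟩))
(.node (.leaf ⟨0, 6707, 0, 0⟩)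
(.leaf ⟨2, 13397, 0, 0⟩)))
(.node (.node (.leaf ⟨1, 106, 116, 0⟩)
(.leaf ⟨1, 32, 1, 0⟩))
(.node (.leaf ⟨0, 8317, 0, 0⟩)
(.leaf ⟨1, 72, 20, 0⟩))))))
(.node (.node (.node (.node (.node (.node (.leaf ⟨0, 5065, 0, 0⟩)
(.leaf ⟨1, 120, 113, 0⟩))
(.leaf ⟨0, 3498, 0, 0⟩))
(.node (.leaf ⟨0, 2510, 0, 0⟩)
(.leaf ⟨1, 2, 64, 0⟩)))
(.node (.node (.leaf ⟨2, 15113, 0, 0⟩)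
(.leaf ⟨2, 1993, 0, 0⟩))
(.node (.leaf ⟨1, 12, 96, 0⟩)
(.leaf ⟨0, 11293, 0, 0⟩))))
(.node (.node (.node (.leaf ⟨0, 7942, 0, 0⟩)
(.leaf ⟨1, 4, 2, 0⟩))
(.node (.leaf ⟨0, 1199, 0, 0⟩)
(.leaf ⟨0, 5864, 0, 0⟩)))
(.node (.node (.leaf ⟨2, 7207, 0, 0⟩)
(.leaf ⟨2, 13575, 0, 0⟩))
(.node (.leaf ⟨1, 52, 98, 0⟩)
(.leaf ⟨0, 3194, 0, 0⟩)))))
(.node (.node (.node (.node (.leaf ⟨0, 8287, 0, 0⟩)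
(.leaf ⟨1, 5, 17, 0⟩))
(.node (.leaf ⟨0, 15382, 0, 0⟩)
(.leaf ⟨1, 120, 90, 0⟩)))
(.node (.node (.leaf ⟨0, 10299, 0, 0⟩)
(.leaf ⟨0, 14861, 0, 0⟩))
(.node (.leaf ⟨0, 6727, 0, 0⟩)
(.leaf ⟨2, 127, 0, 0⟩))))
(.node (.node (.node (.leaf ⟨1, 18, 3, 0⟩)
(.leaf ⟨1, 12, 24, 0⟩))
(.node (.leaf ⟨0, 7814, 0, 0⟩)
(.leaf ⟨0, 5484, 0, 0⟩)))
(.node (.node (.leaf ⟨1, 9, 10, 0⟩)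
(.leaf ⟨1, 9, 17, 0⟩))
(.node (.leaf ⟨0, 7198, 0, 0⟩)
(.leaf ⟨0, 14351, 0, 0⟩))))))))
(.node (.node (.node (.node (.node (.node (.node (.node (.leaf ⟨1, 110, 124, 0⟩)
(.leaf ⟨0, 10350, 0, 0⟩))
(.leaf ⟨1, 24, 80, 0⟩))
(.node (.leaf ⟨2, 13845, 0, 0⟩)
(.leaf ⟨0, 10349, 0, 0⟩)))
(.node (.node (.leaf ⟨1, 47, 61, 0⟩)
(.leaf ⟨0, 15296, 0, 0⟩))
(.node (.leaf ⟨0, 6082, 0, 0⟩)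
(.leaf ⟨1, 23, 39, 0⟩))))
(.node (.node (.node (.leaf ⟨1, 12, 48, 0⟩)
(.leaf ⟨1, 23, 43, 0⟩))
(.node (.leaf ⟨1, 11, 22, 0⟩)
(.leaf ⟨2, 14419, 0, 0⟩)))
(.node (.node (.leaf ⟨1, 20, 96, 0⟩)
(.leaf ⟨1, 7, 73, 0⟩))
(.node (.leaf ⟨0, 11287, 0, 0⟩)
(.leaf ⟨1, 65, 80, 0⟩)))))
(.node (.node (.node (.node (.leaf ⟨0, 5230, 0, 0⟩)
(.leaf ⟨1, 104, 84, 0⟩))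
(.node (.leaf ⟨1, 6, 18, 0⟩)
(.leaf ⟨1, 61, 47, 0⟩)))
(.node (.node (.leaf ⟨1, 7, 21, 0⟩)
(.leaf ⟨1, 13, 13, 0⟩))
(.node (.leaf ⟨2, 10519, 0, 0⟩)
(.leaf ⟨0, 10347, 0, 0⟩))))
(.node (.node (.node (.leaf ⟨0, 3306, 0, 0⟩)
(.leaf ⟨1, 71, 23, 0⟩))
(.node (.leaf ⟨2, 14485, 0, 0⟩)
(.leaf ⟨0, 463, 0, 0⟩)))
(.node (.node (.leaf ⟨1, 1, 32, 0⟩)
(.leaf ⟨0, 10333, 0, 0⟩))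
(.node (.leaf ⟨1, 11, 26, 0⟩)
(.leaf ⟨0, 14605, 0, 0⟩))))))
(.node (.node (.node (.node (.node (.node (.leaf ⟨0, 11783, 0, 0⟩)
(.leaf ⟨1, 23, 27, 0⟩))
(.leaf ⟨1, 71, 27, 0⟩))
(.node (.leaf ⟨0, 4207, 0, 0⟩)
(.leaf ⟨0, 3418, 0, 0⟩)))
(.node (.node (.leaf ⟨0, 8503, 0, 0⟩)
(.leaf ⟨0, 4588, 0, 0⟩))
(.node (.leaf ⟨0, 10160, 0, 0⟩)
(.leaf ⟨0, 9383, 0, 0⟩))))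
(.node (.node (.node (.leaf ⟨0, 9200, 0, 0⟩)
(.leaf ⟨0, 14723, 0, 0⟩))
(.node (.leaf ⟨0, 7856, 0, 0⟩)
(.leaf ⟨0, 2930, 0, 0⟩)))
(.node (.node (.leaf ⟨0, 7080, 0, 0⟩)
(.leaf ⟨0, 5580, 0, 0⟩))
(.node (.leaf ⟨2, 13327, 0, 0⟩)
(.leaf ⟨1, 112, 81, 0⟩)))))
(.node (.node (.node (.node (.leaf ⟨1, 42, 100, 0⟩)
(.leaf ⟨0, 14160, 0, 0⟩))
(.node (.leaf ⟨0, 1660, 0, 0⟩)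
(.leaf ⟨0, 5356, 0, 0⟩)))
(.node (.node (.leaf ⟨0, 11801, 0, 0⟩)
(.leaf ⟨0, 13217, 0, 0⟩))
(.node (.leaf ⟨1, 106, 108, 0⟩)
(.leaf ⟨0, 9323, 0, 0⟩))))
(.node (.node (.node (.leaf ⟨0, 15633, 0, 0⟩)
(.leaf ⟨0, 2936, 0, 0⟩))
(.node (.leaf ⟨0, 1770, 0, 0⟩)
(.leaf ⟨0, 15240, 0, 0⟩)))
(.node (.node (.leaf ⟨0, 12056, 0, 0⟩)
(.leaf ⟨0, 5223, 0, 0⟩))
(.node (.leaf ⟨0, 6683, 0, 0⟩)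
(.leaf ⟨0, 2279, 0, 0⟩)))))))
(.node (.node (.node (.node (.node (.node (.node (.leaf ⟨1, 13, 14, 0⟩)
(.leaf ⟨0, 10484, 0, 0⟩))
(.leaf ⟨2, 6191, 0, 0⟩))
(.node (.leaf ⟨1, 92, 102, 0⟩)
(.leaf ⟨0, 12379, 0, 0⟩)))
(.node (.node (.leaf ⟨0, 9517, 0, 0⟩)
(.leaf ⟨0, 14614, 0, 0⟩))
(.node (.leaf ⟨0, 1970, 0, 0⟩)
(.leaf ⟨0, 1239, 0, 0⟩))))
(.node (.node (.node (.leaf ⟨1, 24, 24, 0⟩)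
(.leaf ⟨0, 5683, 0, 0⟩))
(.node (.leaf ⟨0, 15681, 0, 0⟩)
(.leaf ⟨0, 14365, 0, 0⟩)))
(.node (.node (.leaf ⟨0, 1453, 0, 0⟩)
(.leaf ⟨2, 2143, 0, 0⟩))
(.node (.leaf ⟨1, 80, 48, 0⟩)
(.leaf ⟨0, 4718, 0, 0⟩)))))
(.node (.node (.node (.node (.leaf ⟨0, 11944, 0, 0⟩)
(.leaf ⟨0, 1255, 0, 0⟩))
(.node (.leaf ⟨0, 14915, 0, 0⟩)
(.leaf ⟨1, 122, 103, 0⟩)))
(.node (.node (.leaf ⟨1, 100, 56, 0⟩)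
(.leaf ⟨2, 13125, 0, 0⟩))
(.node (.leaf ⟨0, 12871, 0, 0⟩)
(.leaf ⟨0, 2996, 0, 0⟩))))
(.node (.node (.node (.leaf ⟨0, 2283, 0, 0⟩)
(.leaf ⟨0, 1342, 0, 0⟩))
(.node (.leaf ⟨1, 67, 19, 0⟩)
(.leaf ⟨1, 22, 26, 0⟩)))
(.node (.node (.leaf ⟨0, 3812, 0, 0⟩)
(.leaf ⟨0, 15110, 0, 0⟩))
(.node (.leaf ⟨1, 48, 66, 0⟩)
(.leaf ⟨0, 1327, 0, 0⟩))))))
(.node (.node (.node (.node (.node (.node (.leaf ⟨0, 5167, 0, 0⟩)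
(.leaf ⟨0, 12571, 0, 0⟩))
(.leaf ⟨1, 99, 23, 0⟩))
(.node (.leaf ⟨0, 12829, 0, 0⟩)
(.leaf ⟨0, 15890, 0, 0⟩)))
(.node (.node (.leaf ⟨2, 15373, 0, 0⟩)
(.leaf ⟨0, 1262, 0, 0⟩))
(.node (.leaf ⟨0, 3529, 0, 0⟩)
(.leaf ⟨0, 7880, 0, 0⟩))))
(.node (.node (.node (.leaf ⟨2, 12319, 0, 0⟩)
(.leaf ⟨0, 3308, 0, 0⟩))
(.node (.leaf ⟨0, 10779, 0, 0⟩)
(.leaf ⟨1, 21, 19, 0⟩)))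
(.node (.node (.leaf ⟨0, 15877, 0, 0⟩)
(.leaf ⟨1, 46, 15, 0⟩))
(.node (.leaf ⟨2, 11279, 0, 0⟩)
(.leaf ⟨1, 94, 124, 0⟩)))))
(.node (.node (.node (.node (.leaf ⟨0, 986, 0, 0⟩)
(.leaf ⟨0, 9767, 0, 0⟩))
(.node (.leaf ⟨0, 14994, 0, 0⟩)
(.leaf ⟨1, 88, 74, 0⟩)))
(.node (.node (.leaf ⟨0, 13365, 0, 0⟩)
(.leaf ⟨1, 17, 17, 0⟩))
(.node (.leaf ⟨1, 3, 3, 0⟩)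
(.leaf ⟨0, 6112, 0, 0⟩))))
(.node (.node (.node (.leaf ⟨0, 12589, 0, 0⟩)
(.leaf ⟨0, 9960, 0, 0⟩))
(.node (.leaf ⟨0, 12176, 0, 0⟩)
(.leaf ⟨0, 3028, 0, 0⟩)))
(.node (.node (.leaf ⟨1, 20, 10, 0⟩)
(.leaf ⟨0, 3017, 0, 0⟩))
(.node (.leaf ⟨1, 24, 36, 0⟩)
(.leaf ⟨0, 5842, 0, 0⟩)))))))))
(.node (.node (.node (.node (.node (.node (.node (.node (.node (.leaf ⟨0, 995, 0, 0⟩)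
(.leaf ⟨0, 1509, 0, 0⟩))
(.leaf ⟨0, 14419, 0, 0⟩))
(.node (.leaf ⟨0, 8563, 0, 0⟩)
(.leaf ⟨1, 103, 59, 0⟩)))
(.node (.node (.leaf ⟨0, 9676, 0, 0⟩)
(.leaf ⟨0, 13077, 0, 0⟩))
(.node (.leaf ⟨1, 23, 45, 0⟩)
(.leaf ⟨1, 31, 55, 0⟩))))
(.node (.node (.node (.leaf ⟨0, 8509, 0, 0⟩)
(.leaf ⟨0, 14240, 0, 0⟩))
(.node (.leaf ⟨0, 1359, 0, 0⟩)
(.leaf ⟨0, 13341, 0, 0⟩)))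
(.node (.node (.leaf ⟨0, 7945, 0, 0⟩)
(.leaf ⟨1, 78, 116, 0⟩))
(.node (.leaf ⟨1, 18, 18, 0⟩)
(.leaf ⟨0, 12343, 0, 0⟩)))))
(.node (.node (.node (.node (.leaf ⟨1, 96, 40, 0⟩)
(.leaf ⟨1, 36, 72, 0⟩))
(.node (.leaf ⟨1, 96, 72, 0⟩)
(.leaf ⟨1, 7, 26, 0⟩)))
(.node (.node (.leaf ⟨1, 96, 24, 0⟩)
(.leaf ⟨2, 9751, 0, 0⟩))
(.node (.leaf ⟨1, 23, 57, 0⟩)
(.leaf ⟨0, 5957, 0, 0⟩))))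
(.node (.node (.node (.leaf ⟨0, 8751, 0, 0⟩)
(.leaf ⟨1, 77, 108, 0⟩))
(.node (.leaf ⟨0, 2422, 0, 0⟩)
(.leaf ⟨0, 10145, 0, 0⟩)))
(.node (.node (.leaf ⟨0, 10136, 0, 0⟩)
(.leaf ⟨0, 11172, 0, 0⟩))
(.node (.leaf ⟨0, 9688, 0, 0⟩)
(.leaf ⟨0, 7431, 0, 0⟩))))))
(.node (.node (.node (.node (.node (.node (.leaf ⟨2, 13355, 0, 0⟩)
(.leaf ⟨0, 11317, 0, 0⟩))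
(.leaf ⟨0, 15121, 0, 0⟩))
(.node (.leaf ⟨1, 15, 60, 0⟩)
(.leaf ⟨0, 7953, 0, 0⟩)))
(.node (.node (.leaf ⟨0, 11184, 0, 0⟩)
(.leaf ⟨1, 64, 16, 0⟩))
(.node (.leaf ⟨0, 11922, 0, 0⟩)
(.leaf ⟨0, 2921, 0, 0⟩))))
(.node (.node (.node (.leaf ⟨1, 104, 70, 0⟩)
(.leaf ⟨0, 1658, 0, 0⟩))
(.node (.leaf ⟨0, 375, 0, 0⟩)
(.leaf ⟨0, 12885, 0, 0⟩)))
(.node (.node (.leaf ⟨1, 23, 46, 0⟩)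
(.leaf ⟨0, 2906, 0, 0⟩))
(.node (.leaf ⟨1, 37, 19, 0⟩)
(.leaf ⟨2, 14883, 0, 0⟩)))))
(.node (.node (.node (.node (.leaf ⟨0, 4431, 0, 0⟩)
(.leaf ⟨1, 62, 124, 0⟩))
(.node (.leaf ⟨2, 11315, 0, 0⟩)
(.leaf ⟨0, 5872, 0, 0⟩)))
(.node (.node (.leaf ⟨2, 2223, 0, 0⟩)
(.leaf ⟨0, 11169, 0, 0⟩))
(.node (.leaf ⟨1, 102, 114, 0⟩)
(.leaf ⟨0, 7620, 0, 0⟩))))
(.node (.node (.node (.leaf ⟨1, 9, 24, 0⟩)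
(.leaf ⟨0, 5020, 0, 0⟩))
(.node (.leaf ⟨0, 9968, 0, 0⟩)
(.leaf ⟨2, 6033, 0, 0⟩)))
(.node (.node (.leaf ⟨0, 13363, 0, 0⟩)
(.leaf ⟨1, 5, 9, 0⟩))
(.node (.leaf ⟨0, 7112, 0, 0⟩)
(.leaf ⟨2, 10407, 0, 0⟩)))))))
(.node (.node (.node (.node (.node (.node (.node (.leaf ⟨0, 15920, 0, 0⟩)
(.leaf ⟨2, 5175, 0, 0⟩))
(.leaf ⟨2, 9323, 0, 0⟩))
(.node (.leaf ⟨0, 750, 0, 0⟩)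
(.leaf ⟨0, 8975, 0, 0⟩)))
(.node (.node (.leaf ⟨0, 1143, 0, 0⟩)
(.leaf ⟨0, 7288, 0, 0⟩))
(.node (.leaf ⟨0, 13105, 0, 0⟩)
(.leaf ⟨2, 5227, 0, 0⟩))))
(.node (.node (.node (.leaf ⟨0, 4303, 0, 0⟩)
(.leaf ⟨2, 14359, 0, 0⟩))
(.node (.leaf ⟨0, 12080, 0, 0⟩)
(.leaf ⟨0, 10525, 0, 0⟩)))
(.node (.node (.leaf ⟨0, 3020, 0, 0⟩)
(.leaf ⟨1, 65, 96, 0⟩))
(.node (.leaf ⟨0, 11541, 0, 0⟩)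
(.leaf ⟨2, 13363, 0, 0⟩)))))
(.node (.node (.node (.node (.leaf ⟨0, 4327, 0, 0⟩)
(.leaf ⟨0, 8096, 0, 0⟩))
(.node (.leaf ⟨0, 9307, 0, 0⟩)
(.leaf ⟨0, 6049, 0, 0⟩)))
(.node (.node (.leaf ⟨0, 6231, 0, 0⟩)
(.leaf ⟨0, 10422, 0, 0⟩))
(.node (.leaf ⟨2, 251, 0, 0⟩)
(.leaf ⟨0, 5767, 0, 0⟩))))
(.node (.node (.node (.leaf ⟨0, 954, 0, 0⟩)
(.leaf ⟨1, 104, 44, 0⟩))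
(.node (.leaf ⟨0, 8255, 0, 0⟩)
(.leaf ⟨0, 8438, 0, 0⟩)))
(.node (.node (.leaf ⟨1, 100, 100, 0⟩)
(.leaf ⟨0, 3119, 0, 0⟩))
(.node (.leaf ⟨0, 13411, 0, 0⟩)
(.leaf ⟨1, 92, 101, 0⟩))))))
(.node (.node (.node (.node (.node (.node (.leaf ⟨0, 4582, 0, 0⟩)
(.leaf ⟨1, 105, 102, 0⟩))
(.leaf ⟨0, 15875, 0, 0⟩))
(.node (.leaf ⟨0, 1012, 0, 0⟩)
(.leaf ⟨1, 43, 29, 0⟩)))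
(.node (.node (.leaf ⟨0, 13905, 0, 0⟩)
(.leaf ⟨2, 10383, 0, 0⟩))
(.node (.leaf ⟨0, 1996, 0, 0⟩)
(.leaf ⟨1, 120, 106, 0⟩))))
(.node (.node (.node (.leaf ⟨0, 11797, 0, 0⟩)
(.leaf ⟨0, 13985, 0, 0⟩))
(.node (.leaf ⟨1, 4, 1, 0⟩)
(.leaf ⟨0, 351, 0, 0⟩)))
(.node (.node (.leaf ⟨0, 2534, 0, 0⟩)
(.leaf ⟨1, 60, 102, 0⟩))
(.node (.leaf ⟨1, 76, 28, 0⟩)
(.leaf ⟨1, 114, 105, 0⟩)))))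
(.node (.node (.node (.node (.leaf ⟨1, 40, 96, 0⟩)
(.leaf ⟨0, 11043, 0, 0⟩))
(.node (.leaf ⟨0, 1514, 0, 0⟩)
(.leaf ⟨0, 5244, 0, 0⟩)))
(.node (.node (.leaf ⟨0, 2524, 0, 0⟩)
(.leaf ⟨1, 30, 27, 0⟩))
(.node (.leaf ⟨2, 2537, 0, 0⟩)
(.leaf ⟨0, 11787, 0, 0⟩))))
(.node (.node (.node (.leaf ⟨0, 2294, 0, 0⟩)
(.leaf ⟨1, 89, 120, 0⟩))
(.node (.leaf ⟨0, 14366, 0, 0⟩)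
(.leaf ⟨0, 7687, 0, 0⟩)))
(.node (.node (.leaf ⟨2, 13589, 0, 0⟩)
(.leaf ⟨0, 14098, 0, 0⟩))
(.node (.leaf ⟨0, 2521, 0, 0⟩)
(.leaf ⟨0, 12901, 0, 0⟩))))))))
(.node (.node (.node (.node (.node (.node (.node (.node (.leaf ⟨0, 5585, 0, 0⟩)
(.leaf ⟨0, 13125, 0, 0⟩))
(.leaf ⟨0, 14020, 0, 0⟩))
(.node (.leaf ⟨0, 2615, 0, 0⟩)
(.leaf ⟨0, 10767, 0, 0⟩)))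
(.node (.node (.leaf ⟨1, 114, 120, 0⟩)
(.leaf ⟨1, 104, 69, 0⟩))
(.node (.leaf ⟨2, 9277, 0, 0⟩)
(.leaf ⟨0, 191, 0, 0⟩))))
(.node (.node (.node (.leaf ⟨2, 5167, 0, 0⟩)
(.leaf ⟨0, 14381, 0, 0⟩))
(.node (.leaf ⟨1, 106, 120, 0⟩)
(.leaf ⟨0, 14985, 0, 0⟩)))
(.node (.node (.leaf ⟨0, 251, 0, 0⟩)
(.leaf ⟨2, 15875, 0, 0⟩))
(.node (.leaf ⟨0, 9325, 0, 0⟩)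
(.leaf ⟨1, 39, 30, 0⟩)))))
(.node (.node (.node (.node (.leaf ⟨0, 3042, 0, 0⟩)
(.leaf ⟨0, 3500, 0, 0⟩))
(.node (.leaf ⟨0, 12935, 0, 0⟩)
(.leaf ⟨0, 9263, 0, 0⟩)))
(.node (.node (.leaf ⟨2, 14929, 0, 0⟩)
(.leaf ⟨0, 10899, 0, 0⟩))
(.node (.leaf ⟨1, 4, 64, 0⟩)
(.leaf ⟨1, 120, 86, 0⟩))))
(.node (.node (.node (.leaf ⟨0, 15137, 0, 0⟩)
(.leaf ⟨0, 15113, 0, 0⟩))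
(.node (.leaf ⟨1, 107, 109, 0⟩)
(.leaf ⟨1, 51, 51, 0⟩)))
(.node (.node (.leaf ⟨1, 124, 118, 0⟩)
(.leaf ⟨0, 10476, 0, 0⟩))
(.node (.leaf ⟨2, 9767, 0, 0⟩)
(.leaf ⟨0, 16144, 0, 0⟩))))))
(.node (.node (.node (.node (.node (.node (.leaf ⟨0, 13069, 0, 0⟩)
(.leaf ⟨0, 10152, 0, 0⟩))
(.leaf ⟨0, 12965, 0, 0⟩))
(.node (.leaf ⟨0, 8318, 0, 0⟩)
(.leaf ⟨0, 10358, 0, 0⟩)))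
(.node (.node (.leaf ⟨1, 105, 116, 0⟩)
(.leaf ⟨0, 477, 0, 0⟩))
(.node (.leaf ⟨1, 21, 13, 0⟩)
(.leaf ⟨1, 104, 56, 0⟩))))
(.node (.node (.node (.leaf ⟨0, 747, 0, 0⟩)
(.leaf ⟨0, 13837, 0, 0⟩))
(.node (.leaf ⟨0, 16192, 0, 0⟩)
(.leaf ⟨1, 6, 10, 0⟩)))
(.node (.node (.leaf ⟨0, 956, 0, 0⟩)
(.leaf ⟨1, 122, 124, 0⟩))
(.node (.leaf ⟨1, 104, 112, 0⟩)
(.leaf ⟨1, 7, 69, 0⟩)))))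
(.node (.node (.node (.node (.leaf ⟨1, 52, 112, 0⟩)
(.leaf ⟨1, 3, 6, 0⟩))
(.node (.leaf ⟨0, 10419, 0, 0⟩)
(.leaf ⟨0, 506, 0, 0⟩)))
(.node (.node (.leaf ⟨0, 9799, 0, 0⟩)
(.leaf ⟨0, 10132, 0, 0⟩))
(.node (.leaf ⟨0, 9779, 0, 0⟩)
(.leaf ⟨1, 1, 1, 0⟩))))
(.node (.node (.node (.leaf ⟨0, 2426, 0, 0⟩)
(.leaf ⟨1, 73, 100, 0⟩))
(.node (.leaf ⟨0, 7648, 0, 0⟩)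
(.leaf ⟨1, 72, 12, 0⟩)))
(.node (.node (.leaf ⟨1, 15, 54, 0⟩)
(.leaf ⟨0, 7576, 0, 0⟩))
(.node (.leaf ⟨1, 84, 112, 0⟩)
(.leaf ⟨1, 39, 39, 0⟩)))))))
(.node (.node (.node (.node (.node (.node (.node (.leaf ⟨1, 21, 7, 0⟩)
(.leaf ⟨0, 7729, 0, 0⟩))
(.leaf ⟨0, 13201, 0, 0⟩))
(.node (.leaf ⟨0, 1397, 0, 0⟩)
(.leaf ⟨1, 72, 72, 0⟩)))
(.node (.node (.leaf ⟨0, 14917, 0, 0⟩)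
(.leaf ⟨2, 12445, 0, 0⟩))
(.node (.leaf ⟨1, 96, 66, 0⟩)
(.leaf ⟨1, 62, 55, 0⟩))))
(.node (.node (.node (.leaf ⟨0, 15124, 0, 0⟩)
(.leaf ⟨1, 54, 23, 0⟩))
(.node (.leaf ⟨0, 14996, 0, 0⟩)
(.leaf ⟨0, 11696, 0, 0⟩)))
(.node (.node (.leaf ⟨0, 7108, 0, 0⟩)
(.leaf ⟨2, 13387, 0, 0⟩))
(.node (.leaf ⟨0, 13447, 0, 0⟩)
(.leaf ⟨1, 124, 122, 0⟩)))))
(.node (.node (.node (.node (.leaf ⟨0, 16256, 0, 0⟩)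
(.leaf ⟨0, 12839, 0, 0⟩))
(.node (.leaf ⟨1, 25, 25, 0⟩)
(.leaf ⟨1, 112, 98, 0⟩)))
(.node (.node (.leaf ⟨0, 15619, 0, 0⟩)
(.leaf ⟨0, 638, 0, 0⟩))
(.node (.leaf ⟨0, 10088, 0, 0⟩)
(.leaf ⟨1, 35, 49, 0⟩))))
(.node (.node (.node (.leaf ⟨0, 4856, 0, 0⟩)
(.leaf ⟨2, 3127, 0, 0⟩))
(.node (.leaf ⟨0, 1780, 0, 0⟩)
(.leaf ⟨1, 8, 16, 0⟩)))
(.node (.node (.leaf ⟨0, 3508, 0, 0⟩)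
(.leaf ⟨1, 100, 84, 0⟩))
(.node (.leaf ⟨0, 12950, 0, 0⟩)
(.leaf ⟨1, 105, 101, 0⟩))))))
(.node (.node (.node (.node (.node (.leaf ⟨1, 114, 114, 0⟩)
(.leaf ⟨2, 2001, 0, 0⟩))
(.node (.leaf ⟨0, 7239, 0, 0⟩)
(.leaf ⟨2, 13365, 0, 0⟩)))
(.node (.node (.leaf ⟨0, 8303, 0, 0⟩)
(.leaf ⟨1, 76, 84, 0⟩))
(.node (.leaf ⟨1, 82, 112, 0⟩)
(.leaf ⟨0, 2286, 0, 0⟩))))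
(.node (.node (.node (.leaf ⟨1, 108, 102, 0⟩)
(.leaf ⟨1, 39, 53, 0⟩))
(.node (.leaf ⟨1, 8, 32, 0⟩)
(.leaf ⟨0, 15881, 0, 0⟩)))
(.node (.node (.leaf ⟨1, 36, 40, 0⟩)
(.leaf ⟨1, 88, 97, 0⟩))
(.node (.leaf ⟨0, 8783, 0, 0⟩)
(.leaf ⟨0, 15634, 0, 0⟩)))))
(.node (.node (.node (.node (.leaf ⟨0, 10287, 0, 0⟩)
(.leaf ⟨0, 6088, 0, 0⟩))
(.node (.leaf ⟨0, 5671, 0, 0⟩)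
(.leaf ⟨0, 3704, 0, 0⟩)))
(.node (.node (.leaf ⟨1, 55, 62, 0⟩)
(.leaf ⟨2, 5671, 0, 0⟩))
(.node (.leaf ⟨0, 14897, 0, 0⟩)
(.leaf ⟨0, 5175, 0, 0⟩))))
(.node (.node (.node (.leaf ⟨0, 1962, 0, 0⟩)
(.leaf ⟨0, 11015, 0, 0⟩))
(.node (.leaf ⟨0, 7632, 0, 0⟩)
(.leaf ⟨1, 108, 46, 0⟩)))
(.node (.node (.leaf ⟨0, 14114, 0, 0⟩)
(.leaf ⟨1, 105, 120, 0⟩))
(.node (.leaf ⟨1, 20, 18, 0⟩)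
(.leaf ⟨0, 14018, 0, 0⟩))))))))))
(.node (.node (.node (.node (.node (.node (.node (.node (.node (.node (.leaf ⟨0, 1390, 0, 0⟩)
(.leaf ⟨2, 10791, 0, 0⟩))
(.leaf ⟨1, 55, 47, 0⟩))
(.node (.leaf ⟨1, 74, 112, 0⟩)
(.leaf ⟨1, 56, 70, 0⟩)))
(.node (.node (.leaf ⟨0, 3553, 0, 0⟩)
(.leaf ⟨2, 10805, 0, 0⟩))
(.node (.leaf ⟨0, 13357, 0, 0⟩)
(.leaf ⟨1, 80, 24, 0⟩))))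
(.node (.node (.node (.leaf ⟨1, 84, 104, 0⟩)
(.leaf ⟨0, 4191, 0, 0⟩))
(.node (.leaf ⟨1, 107, 87, 0⟩)
(.leaf ⟨2, 9161, 0, 0⟩)))
(.node (.node (.leaf ⟨2, 7191, 0, 0⟩)
(.leaf ⟨0, 6392, 0, 0⟩))
(.node (.leaf ⟨1, 88, 88, 0⟩)
(.leaf ⟨0, 4596, 0, 0⟩)))))
(.node (.node (.node (.node (.leaf ⟨0, 12899, 0, 0⟩)
(.leaf ⟨2, 12935, 0, 0⟩))
(.node (.leaf ⟨0, 12065, 0, 0⟩)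
(.leaf ⟨0, 1500, 0, 0⟩)))
(.node (.node (.leaf ⟨2, 14389, 0, 0⟩)
(.leaf ⟨0, 6640, 0, 0⟩))
(.node (.leaf ⟨0, 223, 0, 0⟩)
(.leaf ⟨0, 8807, 0, 0⟩))))
(.node (.node (.node (.leaf ⟨0, 9580, 0, 0⟩)
(.leaf ⟨2, 9487, 0, 0⟩))
(.node (.leaf ⟨0, 4639, 0, 0⟩)
(.leaf ⟨0, 14792, 0, 0⟩)))
(.node (.node (.leaf ⟨1, 48, 96, 0⟩)
(.leaf ⟨1, 56, 100, 0⟩))
(.node (.leaf ⟨1, 7, 35, 0⟩)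
(.leaf ⟨1, 103, 124, 0⟩))))))
(.node (.node (.node (.node (.node (.node (.leaf ⟨0, 3560, 0, 0⟩)
(.leaf ⟨0, 8128, 0, 0⟩))
(.leaf ⟨0, 7954, 0, 0⟩))
(.node (.leaf ⟨0, 7715, 0, 0⟩)
(.leaf ⟨2, 6223, 0, 0⟩)))
(.node (.node (.leaf ⟨0, 14870, 0, 0⟩)
(.leaf ⟨2, 12627, 0, 0⟩))
(.node (.leaf ⟨0, 8507, 0, 0⟩)
(.leaf ⟨2, 1777, 0, 0⟩))))
(.node (.node (.node (.leaf ⟨0, 2548, 0, 0⟩)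
(.leaf ⟨0, 1591, 0, 0⟩))
(.node (.leaf ⟨0, 13189, 0, 0⟩)
(.leaf ⟨0, 15397, 0, 0⟩)))
(.node (.node (.leaf ⟨0, 15429, 0, 0⟩)
(.leaf ⟨0, 1402, 0, 0⟩))
(.node (.leaf ⟨0, 3764, 0, 0⟩)
(.leaf ⟨1, 88, 81, 0⟩)))))
(.node (.node (.node (.node (.leaf ⟨0, 6223, 0, 0⟩)
(.leaf ⟨1, 80, 80, 0⟩))
(.node (.leaf ⟨0, 7969, 0, 0⟩)
(.leaf ⟨1, 97, 104, 0⟩)))
(.node (.node (.leaf ⟨2, 14917, 0, 0⟩)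
(.leaf ⟨2, 9495, 0, 0⟩))
(.node (.leaf ⟨1, 29, 39, 0⟩)
(.leaf ⟨0, 13986, 0, 0⟩))))
(.node (.node (.node (.leaf ⟨1, 105, 108, 0⟩)
(.leaf ⟨1, 103, 103, 0⟩))
(.node (.leaf ⟨0, 9095, 0, 0⟩)
(.leaf ⟨1, 80, 96, 0⟩)))
(.node (.node (.leaf ⟨1, 44, 98, 0⟩)
(.leaf ⟨1, 11, 14, 0⟩))
(.node (.leaf ⟨2, 14869, 0, 0⟩)
(.leaf ⟨2, 14421, 0, 0⟩)))))))
(.node (.node (.node (.node (.node (.node (.node (.leaf ⟨0, 2366, 0, 0⟩)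
(.leaf ⟨0, 2802, 0, 0⟩))
(.leaf ⟨2, 15121, 0, 0⟩))
(.node (.leaf ⟨1, 7, 11, 0⟩)
(.leaf ⟨0, 623, 0, 0⟩)))
(.node (.node (.leaf ⟨0, 9277, 0, 0⟩)
(.leaf ⟨0, 15649, 0, 0⟩))
(.node (.leaf ⟨0, 16130, 0, 0⟩)
(.leaf ⟨0, 3196, 0, 0⟩))))
(.node (.node (.node (.leaf ⟨1, 30, 23, 0⟩)
(.leaf ⟨1, 81, 104, 0⟩))
(.node (.leaf ⟨1, 18, 17, 0⟩)
(.leaf ⟨0, 12035, 0, 0⟩)))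
(.node (.node (.leaf ⟨1, 7, 13, 0⟩)
(.leaf ⟨1, 94, 110, 0⟩))
(.node (.leaf ⟨0, 8379, 0, 0⟩)
(.leaf ⟨2, 2533, 0, 0⟩)))))
(.node (.node (.node (.node (.leaf ⟨0, 4331, 0, 0⟩)
(.leaf ⟨1, 15, 71, 0⟩))
(.node (.leaf ⟨0, 12573, 0, 0⟩)
(.leaf ⟨2, 14483, 0, 0⟩)))
(.node (.node (.leaf ⟨0, 631, 0, 0⟩)
(.leaf ⟨0, 10208, 0, 0⟩))
(.node (.leaf ⟨0, 11176, 0, 0⟩)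
(.leaf ⟨1, 103, 110, 0⟩))))
(.node (.node (.node (.leaf ⟨1, 24, 48, 0⟩)
(.leaf ⟨1, 37, 11, 0⟩))
(.node (.leaf ⟨0, 8735, 0, 0⟩)
(.leaf ⟨1, 112, 88, 0⟩)))
(.node (.node (.leaf ⟨2, 13077, 0, 0⟩)
(.leaf ⟨2, 2017, 0, 0⟩))
(.node (.leaf ⟨1, 4, 8, 0⟩)
(.leaf ⟨1, 17, 9, 0⟩))))))
(.node (.node (.node (.node (.node (.node (.leaf ⟨0, 14486, 0, 0⟩)
(.leaf ⟨1, 10, 10, 0⟩))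
(.leaf ⟨0, 1454, 0, 0⟩))
(.node (.leaf ⟨0, 14599, 0, 0⟩)
(.leaf ⟨0, 12679, 0, 0⟩)))
(.node (.node (.leaf ⟨1, 12, 20, 0⟩)
(.leaf ⟨2, 10803, 0, 0⟩))
(.node (.leaf ⟨1, 21, 26, 0⟩)
(.leaf ⟨1, 120, 46, 0⟩))))
(.node (.node (.node (.leaf ⟨0, 7105, 0, 0⟩)
(.leaf ⟨0, 14886, 0, 0⟩))
(.node (.leaf ⟨2, 12823, 0, 0⟩)
(.leaf ⟨0, 15233, 0, 0⟩)))
(.node (.node (.leaf ⟨0, 9452, 0, 0⟩)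
(.leaf ⟨0, 9295, 0, 0⟩))
(.node (.leaf ⟨0, 1004, 0, 0⟩)
(.leaf ⟨1, 122, 110, 0⟩)))))
(.node (.node (.node (.node (.leaf ⟨2, 12037, 0, 0⟩)
(.leaf ⟨1, 112, 67, 0⟩))
(.node (.leaf ⟨0, 8429, 0, 0⟩)
(.leaf ⟨1, 120, 58, 0⟩)))
(.node (.node (.leaf ⟨0, 9275, 0, 0⟩)
(.leaf ⟨0, 4984, 0, 0⟩))
(.node (.leaf ⟨2, 5577, 0, 0⟩)
(.leaf ⟨0, 14379, 0, 0⟩))))
(.node (.node (.node (.leaf ⟨1, 54, 15, 0⟩)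
(.leaf ⟨2, 12571, 0, 0⟩))
(.node (.leaf ⟨0, 14032, 0, 0⟩)
(.leaf ⟨0, 2004, 0, 0⟩)))
(.node (.node (.leaf ⟨1, 58, 102, 0⟩)
(.leaf ⟨0, 9162, 0, 0⟩))
(.node (.leaf ⟨0, 11315, 0, 0⟩)
(.leaf ⟨0, 14024, 0, 0⟩))))))))
(.node (.node (.node (.node (.node (.node (.node (.node (.leaf ⟨0, 1261, 0, 0⟩)
(.leaf ⟨1, 18, 5, 0⟩))
(.leaf ⟨1, 97, 112, 0⟩))
(.node (.leaf ⟨1, 48, 40, 0⟩)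
(.leaf ⟨0, 575, 0, 0⟩)))
(.node (.node (.leaf ⟨2, 12403, 0, 0⟩)
(.leaf ⟨0, 1016, 0, 0⟩))
(.node (.leaf ⟨0, 758, 0, 0⟩)
(.leaf ⟨0, 6064, 0, 0⟩))))
(.node (.node (.node (.leaf ⟨1, 59, 103, 0⟩)
(.leaf ⟨0, 4286, 0, 0⟩))
(.node (.leaf ⟨0, 15892, 0, 0⟩)
(.leaf ⟨1, 68, 48, 0⟩)))
(.node (.node (.leaf ⟨1, 55, 61, 0⟩)
(.leaf ⟨1, 19, 49, 0⟩))
(.node (.leaf ⟨0, 3698, 0, 0⟩)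
(.leaf ⟨2, 14981, 0, 0⟩)))))
(.node (.node (.node (.node (.leaf ⟨1, 6, 24, 0⟩)
(.leaf ⟨0, 3026, 0, 0⟩))
(.node (.leaf ⟨1, 11, 49, 0⟩)
(.leaf ⟨1, 76, 76, 0⟩)))
(.node (.node (.leaf ⟨0, 635, 0, 0⟩)
(.leaf ⟨2, 10319, 0, 0⟩))
(.node (.leaf ⟨1, 106, 102, 0⟩)
(.leaf ⟨0, 3018, 0, 0⟩))))
(.node (.node (.node (.leaf ⟨0, 4215, 0, 0⟩)
(.leaf ⟨1, 99, 116, 0⟩))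
(.node (.leaf ⟨1, 15, 30, 0⟩)
(.leaf ⟨0, 7074, 0, 0⟩)))
(.node (.node (.leaf ⟨1, 49, 11, 0⟩)
(.leaf ⟨0, 2538, 0, 0⟩))
(.node (.leaf ⟨1, 28, 104, 0⟩)
(.leaf ⟨1, 120, 105, 0⟩))))))
(.node (.node (.node (.node (.node (.node (.leaf ⟨2, 14471, 0, 0⟩)
(.leaf ⟨1, 22, 13, 0⟩))
(.leaf ⟨0, 15884, 0, 0⟩))
(.node (.leaf ⟨0, 3159, 0, 0⟩)
(.leaf ⟨0, 14475, 0, 0⟩)))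
(.node (.node (.leaf ⟨0, 4695, 0, 0⟩)
(.leaf ⟨0, 2540, 0, 0⟩))
(.node (.leaf ⟨1, 71, 39, 0⟩)
(.leaf ⟨1, 122, 121, 0⟩))))
(.node (.node (.node (.leaf ⟨0, 2298, 0, 0⟩)
(.leaf ⟨1, 22, 7, 0⟩))
(.node (.leaf ⟨2, 985, 0, 0⟩)
(.leaf ⟨1, 20, 40, 0⟩)))
(.node (.node (.leaf ⟨2, 6231, 0, 0⟩)
(.leaf ⟨0, 971, 0, 0⟩))
(.node (.leaf ⟨2, 14613, 0, 0⟩)
(.leaf ⟨0, 7828, 0, 0⟩)))))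
(.node (.node (.node (.node (.leaf ⟨1, 48, 80, 0⟩)
(.leaf ⟨0, 2270, 0, 0⟩))
(.node (.leaf ⟨0, 3278, 0, 0⟩)
(.leaf ⟨0, 2293, 0, 0⟩)))
(.node (.node (.leaf ⟨0, 13383, 0, 0⟩)
(.leaf ⟨2, 13861, 0, 0⟩))
(.node (.leaf ⟨0, 12883, 0, 0⟩)
(.leaf ⟨0, 3025, 0, 0⟩))))
(.node (.node (.node (.leaf ⟨1, 19, 19, 0⟩)
(.leaf ⟨0, 5068, 0, 0⟩))
(.node (.leaf ⟨1, 7, 37, 0⟩)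
(.leaf ⟨2, 13069, 0, 0⟩)))
(.node (.node (.leaf ⟨2, 1255, 0, 0⟩)
(.leaf ⟨1, 26, 11, 0⟩))
(.node (.leaf ⟨1, 107, 118, 0⟩)
(.leaf ⟨1, 98, 100, 0⟩)))))))
(.node (.node (.node (.node (.node (.node (.node (.leaf ⟨1, 23, 29, 0⟩)
(.leaf ⟨2, 13383, 0, 0⟩))
(.leaf ⟨1, 6, 6, 0⟩))
(.node (.leaf ⟨1, 36, 48, 0⟩)
(.leaf ⟨2, 12947, 0, 0⟩)))
(.node (.node (.leaf ⟨0, 6254, 0, 0⟩)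
(.leaf ⟨2, 7953, 0, 0⟩))
(.node (.leaf ⟨0, 6191, 0, 0⟩)
(.leaf ⟨1, 60, 108, 0⟩))))
(.node (.node (.node (.leaf ⟨0, 7219, 0, 0⟩)
(.leaf ⟨2, 14873, 0, 0⟩))
(.node (.leaf ⟨1, 17, 3, 0⟩)
(.leaf ⟨0, 10803, 0, 0⟩)))
(.node (.node (.leaf ⟨1, 34, 3, 0⟩)
(.leaf ⟨0, 2398, 0, 0⟩))
(.node (.leaf ⟨0, 8495, 0, 0⟩)
(.leaf ⟨0, 2808, 0, 0⟩)))))
(.node (.node (.node (.node (.leaf ⟨0, 13342, 0, 0⟩)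
(.leaf ⟨0, 7352, 0, 0⟩))
(.node (.leaf ⟨0, 5715, 0, 0⟩)
(.leaf ⟨1, 114, 99, 0⟩)))
(.node (.node (.leaf ⟨1, 120, 120, 0⟩)
(.leaf ⟨0, 15107, 0, 0⟩))
(.node (.leaf ⟨0, 6052, 0, 0⟩)
(.leaf ⟨2, 1389, 0, 0⟩))))
(.node (.node (.node (.leaf ⟨0, 6364, 0, 0⟩)
(.leaf ⟨1, 87, 103, 0⟩))
(.node (.leaf ⟨0, 9192, 0, 0⟩)
(.leaf ⟨0, 13078, 0, 0⟩)))
(.node (.node (.leaf ⟨0, 4064, 0, 0⟩)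
(.leaf ⟨1, 118, 110, 0⟩))
(.node (.leaf ⟨1, 110, 117, 0⟩)
(.leaf ⟨1, 1, 8, 0⟩))))))
(.node (.node (.node (.node (.node (.node (.leaf ⟨0, 1147, 0, 0⟩)
(.leaf ⟨0, 14867, 0, 0⟩))
(.leaf ⟨0, 3032, 0, 0⟩))
(.node (.leaf ⟨2, 14145, 0, 0⟩)
(.leaf ⟨0, 14982, 0, 0⟩)))
(.node (.node (.leaf ⟨1, 55, 103, 0⟩)
(.leaf ⟨1, 38, 11, 0⟩))
(.node (.leaf ⟨0, 2545, 0, 0⟩)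
(.leaf ⟨0, 15491, 0, 0⟩))))
(.node (.node (.node (.leaf ⟨1, 18, 9, 0⟩)
(.leaf ⟨1, 22, 25, 0⟩))
(.node (.leaf ⟨1, 5, 20, 0⟩)
(.leaf ⟨0, 487, 0, 0⟩)))
(.node (.node (.leaf ⟨0, 3314, 0, 0⟩)
(.leaf ⟨0, 12567, 0, 0⟩))
(.node (.leaf ⟨1, 108, 78, 0⟩)
(.leaf ⟨1, 112, 82, 0⟩)))))
(.node (.node (.node (.node (.leaf ⟨0, 5179, 0, 0⟩)
(.leaf ⟨0, 15889, 0, 0⟩))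
(.node (.leaf ⟨1, 2, 8, 0⟩)
(.leaf ⟨0, 12587, 0, 0⟩)))
(.node (.node (.leaf ⟨0, 5048, 0, 0⟩)
(.leaf ⟨0, 1784, 0, 0⟩))
(.node (.leaf ⟨0, 14148, 0, 0⟩)
(.leaf ⟨0, 13093, 0, 0⟩))))
(.node (.node (.node (.leaf ⟨0, 11202, 0, 0⟩)
(.leaf ⟨0, 3824, 0, 0⟩))
(.node (.leaf ⟨0, 11153, 0, 0⟩)
(.leaf ⟨1, 33, 24, 0⟩)))
(.node (.node (.leaf ⟨1, 55, 31, 0⟩)
(.leaf ⟨0, 10130, 0, 0⟩))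
(.node (.leaf ⟨0, 14210, 0, 0⟩)
(.leaf ⟨1, 20, 80, 0⟩)))))))))
(.node (.node (.node (.node (.node (.node (.node (.node (.node (.leaf ⟨0, 13327, 0, 0⟩)
(.leaf ⟨0, 12403, 0, 0⟩))
(.leaf ⟨2, 14089, 0, 0⟩))
(.node (.leaf ⟨2, 6175, 0, 0⟩)
(.leaf ⟨0, 15906, 0, 0⟩)))
(.node (.node (.leaf ⟨0, 2972, 0, 0⟩)
(.leaf ⟨0, 13873, 0, 0⟩))
(.node (.leaf ⟨0, 2255, 0, 0⟩)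
(.leaf ⟨0, 15752, 0, 0⟩))))
(.node (.node (.node (.leaf ⟨1, 110, 62, 0⟩)
(.leaf ⟨0, 15628, 0, 0⟩))
(.node (.leaf ⟨1, 108, 116, 0⟩)
(.leaf ⟨1, 19, 67, 0⟩)))
(.node (.node (.leaf ⟨0, 13190, 0, 0⟩)
(.leaf ⟨0, 11795, 0, 0⟩))
(.node (.leaf ⟨2, 13873, 0, 0⟩)
(.leaf ⟨0, 6380, 0, 0⟩)))))
(.node (.node (.node (.node (.leaf ⟨2, 16129, 0, 0⟩)
(.leaf ⟨1, 59, 31, 0⟩))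
(.node (.leaf ⟨1, 71, 15, 0⟩)
(.leaf ⟨0, 13091, 0, 0⟩)))
(.node (.node (.leaf ⟨1, 19, 26, 0⟩)
(.leaf ⟨0, 9434, 0, 0⟩))
(.node (.leaf ⟨0, 14375, 0, 0⟩)
(.leaf ⟨0, 7064, 0, 0⟩))))
(.node (.node (.node (.leaf ⟨0, 3635, 0, 0⟩)
(.leaf ⟨0, 7528, 0, 0⟩))
(.node (.leaf ⟨0, 1245, 0, 0⟩)
(.leaf ⟨0, 13453, 0, 0⟩)))
(.node (.node (.leaf ⟨0, 13862, 0, 0⟩)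
(.leaf ⟨2, 14407, 0, 0⟩))
(.node (.leaf ⟨0, 2365, 0, 0⟩)
(.leaf ⟨0, 5211, 0, 0⟩))))))
(.node (.node (.node (.node (.node (.node (.leaf ⟨1, 5, 6, 0⟩)
(.leaf ⟨0, 9247, 0, 0⟩))
(.leaf ⟨1, 20, 5, 0⟩))
(.node (.leaf ⟨0, 3796, 0, 0⟩)
(.leaf ⟨1, 28, 7, 0⟩)))
(.node (.node (.leaf ⟨1, 90, 101, 0⟩)
(.leaf ⟨0, 1339, 0, 0⟩))
(.node (.leaf ⟨0, 4034, 0, 0⟩)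
(.leaf ⟨0, 10851, 0, 0⟩))))
(.node (.node (.node (.leaf ⟨0, 6206, 0, 0⟩)
(.leaf ⟨0, 10343, 0, 0⟩))
(.node (.leaf ⟨1, 30, 15, 0⟩)
(.leaf ⟨2, 6199, 0, 0⟩)))
(.node (.node (.leaf ⟨0, 10065, 0, 0⟩)
(.leaf ⟨0, 3179, 0, 0⟩))
(.node (.leaf ⟨0, 9674, 0, 0⟩)
(.leaf ⟨0, 15896, 0, 0⟩)))))
(.node (.node (.node (.node (.leaf ⟨2, 8759, 0, 0⟩)
(.leaf ⟨0, 1900, 0, 0⟩))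
(.node (.leaf ⟨1, 88, 56, 0⟩)
(.leaf ⟨0, 4711, 0, 0⟩)))
(.node (.node (.leaf ⟨0, 1510, 0, 0⟩)
(.leaf ⟨0, 2020, 0, 0⟩))
(.node (.leaf ⟨1, 59, 61, 0⟩)
(.leaf ⟨0, 9144, 0, 0⟩))))
(.node (.node (.node (.leaf ⟨0, 8654, 0, 0⟩)
(.leaf ⟨0, 3302, 0, 0⟩))
(.node (.leaf ⟨1, 17, 40, 0⟩)
(.leaf ⟨0, 10319, 0, 0⟩)))
(.node (.node (.leaf ⟨1, 16, 8, 0⟩)
(.leaf ⟨1, 12, 68, 0⟩))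
(.node (.leaf ⟨0, 3816, 0, 0⟩)
(.leaf ⟨0, 7876, 0, 0⟩)))))))
(.node (.node (.node (.node (.node (.node (.node (.leaf ⟨0, 14873, 0, 0⟩)
(.leaf ⟨1, 26, 19, 0⟩))
(.leaf ⟨0, 12875, 0, 0⟩))
(.node (.leaf ⟨2, 14379, 0, 0⟩)
(.leaf ⟨0, 10357, 0, 0⟩)))
(.node (.node (.leaf ⟨0, 10124, 0, 0⟩)
(.leaf ⟨0, 3940, 0, 0⟩))
(.node (.leaf ⟨1, 124, 110, 0⟩)
(.leaf ⟨0, 5104, 0, 0⟩))))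
(.node (.node (.node (.leaf ⟨1, 40, 48, 0⟩)
(.leaf ⟨2, 13395, 0, 0⟩))
(.node (.leaf ⟨0, 12685, 0, 0⟩)
(.leaf ⟨0, 13461, 0, 0⟩)))
(.node (.node (.leaf ⟨0, 11309, 0, 0⟩)
(.leaf ⟨1, 3, 17, 0⟩))
(.node (.leaf ⟨0, 14859, 0, 0⟩)
(.leaf ⟨0, 3134, 0, 0⟩)))))
(.node (.node (.node (.node (.leaf ⟨0, 2684, 0, 0⟩)
(.leaf ⟨0, 1766, 0, 0⟩))
(.node (.leaf ⟨1, 20, 17, 0⟩)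
(.leaf ⟨0, 3175, 0, 0⟩)))
(.node (.node (.leaf ⟨0, 2231, 0, 0⟩)
(.leaf ⟨0, 13339, 0, 0⟩))
(.node (.leaf ⟨1, 73, 104, 0⟩)
(.leaf ⟨0, 1769, 0, 0⟩))))
(.node (.node (.node (.leaf ⟨1, 72, 96, 0⟩)
(.leaf ⟨0, 505, 0, 0⟩))
(.node (.leaf ⟨0, 3127, 0, 0⟩)
(.leaf ⟨0, 7016, 0, 0⟩)))
(.node (.node (.leaf ⟨0, 6350, 0, 0⟩)
(.leaf ⟨0, 7701, 0, 0⟩))
(.node (.leaf ⟨1, 15, 45, 0⟩)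
(.leaf ⟨1, 100, 52, 0⟩))))))
(.node (.node (.node (.node (.node (.node (.leaf ⟨2, 239, 0, 0⟩)
(.leaf ⟨0, 5496, 0, 0⟩))
(.leaf ⟨1, 8, 64, 0⟩))
(.node (.leaf ⟨0, 15264, 0, 0⟩)
(.leaf ⟨0, 2929, 0, 0⟩)))
(.node (.node (.leaf ⟨0, 9367, 0, 0⟩)
(.leaf ⟨0, 11907, 0, 0⟩))
(.node (.leaf ⟨2, 10767, 0, 0⟩)
(.leaf ⟨0, 10488, 0, 0⟩))))
(.node (.node (.node (.leaf ⟨0, 478, 0, 0⟩)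
(.leaf ⟨0, 6096, 0, 0⟩))
(.node (.leaf ⟨1, 47, 55, 0⟩)
(.leaf ⟨0, 4159, 0, 0⟩)))
(.node (.node (.leaf ⟨1, 116, 101, 0⟩)
(.leaf ⟨1, 20, 3, 0⟩))
(.node (.leaf ⟨1, 72, 36, 0⟩)
(.leaf ⟨1, 69, 25, 0⟩)))))
(.node (.node (.node (.node (.leaf ⟨1, 103, 47, 0⟩)
(.leaf ⟨1, 88, 84, 0⟩))
(.node (.leaf ⟨1, 108, 77, 0⟩)
(.leaf ⟨2, 13249, 0, 0⟩)))
(.node (.node (.leaf ⟨0, 3532, 0, 0⟩)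
(.leaf ⟨0, 7195, 0, 0⟩))
(.node (.leaf ⟨1, 66, 96, 0⟩)
(.leaf ⟨2, 2255, 0, 0⟩))))
(.node (.node (.node (.leaf ⟨1, 93, 124, 0⟩)
(.leaf ⟨1, 114, 106, 0⟩))
(.node (.leaf ⟨1, 52, 104, 0⟩)
(.leaf ⟨0, 8315, 0, 0⟩)))
(.node (.node (.leaf ⟨1, 120, 114, 0⟩)
(.leaf ⟨1, 26, 100, 0⟩))
(.node (.leaf ⟨0, 3386, 0, 0⟩)
(.leaf ⟨0, 12192, 0, 0⟩))))))))
(.node (.node (.node (.node (.node (.node (.node (.node (.leaf ⟨1, 64, 32, 0⟩)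
(.leaf ⟨0, 11232, 0, 0⟩))
(.leaf ⟨0, 4842, 0, 0⟩))
(.node (.leaf ⟨0, 14017, 0, 0⟩)
(.leaf ⟨1, 47, 31, 0⟩)))
(.node (.node (.leaf ⟨0, 499, 0, 0⟩)
(.leaf ⟨0, 10192, 0, 0⟩))
(.node (.leaf ⟨1, 122, 118, 0⟩)
(.leaf ⟨1, 112, 74, 0⟩))))
(.node (.node (.node (.leaf ⟨0, 12445, 0, 0⟩)
(.leaf ⟨0, 8690, 0, 0⟩))
(.node (.leaf ⟨0, 12443, 0, 0⟩)
(.leaf ⟨2, 13063, 0, 0⟩)))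
(.node (.node (.leaf ⟨0, 3544, 0, 0⟩)
(.leaf ⟨0, 13389, 0, 0⟩))
(.node (.leaf ⟨1, 31, 79, 0⟩)
(.leaf ⟨1, 25, 11, 0⟩)))))
(.node (.node (.node (.node (.leaf ⟨0, 12050, 0, 0⟩)
(.leaf ⟨1, 48, 48, 0⟩))
(.node (.leaf ⟨0, 14000, 0, 0⟩)
(.leaf ⟨1, 66, 80, 0⟩)))
(.node (.node (.leaf ⟨1, 124, 103, 0⟩)
(.leaf ⟨0, 8591, 0, 0⟩))
(.node (.leaf ⟨0, 7811, 0, 0⟩)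
(.leaf ⟨0, 4008, 0, 0⟩))))
(.node (.node (.node (.leaf ⟨0, 1522, 0, 0⟩)
(.leaf ⟨0, 6931, 0, 0⟩))
(.node (.leaf ⟨0, 8068, 0, 0⟩)
(.leaf ⟨0, 7024, 0, 0⟩)))
(.node (.node (.leaf ⟨1, 35, 35, 0⟩)
(.leaf ⟨0, 12827, 0, 0⟩))
(.node (.leaf ⟨0, 2994, 0, 0⟩)
(.leaf ⟨0, 15937, 0, 0⟩))))))
(.node (.node (.node (.node (.node (.node (.leaf ⟨2, 7691, 0, 0⟩)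
(.leaf ⟨0, 12439, 0, 0⟩))
(.leaf ⟨0, 13589, 0, 0⟩))
(.node (.leaf ⟨2, 13093, 0, 0⟩)
(.leaf ⟨2, 10899, 0, 0⟩)))
(.node (.node (.leaf ⟨0, 2922, 0, 0⟩)
(.leaf ⟨0, 985, 0, 0⟩))
(.node (.leaf ⟨0, 253, 0, 0⟩)
(.leaf ⟨0, 11533, 0, 0⟩))))
(.node (.node (.node (.leaf ⟨1, 68, 80, 0⟩)
(.leaf ⟨2, 11795, 0, 0⟩))
(.node (.leaf ⟨1, 68, 96, 0⟩)
(.leaf ⟨2, 9367, 0, 0⟩)))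
(.node (.node (.leaf ⟨0, 13395, 0, 0⟩)
(.leaf ⟨0, 13590, 0, 0⟩))
(.node (.leaf ⟨0, 8444, 0, 0⟩)
(.leaf ⟨2, 9743, 0, 0⟩)))))
(.node (.node (.node (.node (.leaf ⟨0, 2414, 0, 0⟩)
(.leaf ⟨2, 11317, 0, 0⟩))
(.node (.leaf ⟨0, 7617, 0, 0⟩)
(.leaf ⟨1, 108, 85, 0⟩)))
(.node (.node (.leaf ⟨1, 120, 60, 0⟩)
(.leaf ⟨1, 118, 117, 0⟩))
(.node (.leaf ⟨1, 88, 98, 0⟩)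
(.leaf ⟨2, 1147, 0, 0⟩))))
(.node (.node (.node (.leaf ⟨0, 5096, 0, 0⟩)
(.leaf ⟨2, 10347, 0, 0⟩))
(.node (.leaf ⟨0, 749, 0, 0⟩)
(.leaf ⟨0, 14981, 0, 0⟩)))
(.node (.node (.leaf ⟨2, 2413, 0, 0⟩)
(.leaf ⟨0, 8080, 0, 0⟩))
(.node (.leaf ⟨0, 13355, 0, 0⟩)
(.leaf ⟨1, 23, 54, 0⟩)))))))
(.node (.node (.node (.node (.node (.node (.node (.leaf ⟨0, 4540, 0, 0⟩)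
(.leaf ⟨2, 13859, 0, 0⟩))
(.leaf ⟨0, 16132, 0, 0⟩))
(.node (.leaf ⟨2, 14861, 0, 0⟩)
(.leaf ⟨1, 107, 117, 0⟩)))
(.node (.node (.leaf ⟨2, 14387, 0, 0⟩)
(.leaf ⟨1, 7, 7, 0⟩))
(.node (.leaf ⟨0, 1214, 0, 0⟩)
(.leaf ⟨0, 9271, 0, 0⟩))))
(.node (.node (.node (.leaf ⟨0, 1276, 0, 0⟩)
(.leaf ⟨1, 122, 122, 0⟩))
(.node (.leaf ⟨0, 16001, 0, 0⟩)
(.leaf ⟨0, 13874, 0, 0⟩)))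
(.node (.node (.leaf ⟨0, 5340, 0, 0⟩)
(.leaf ⟨0, 16008, 0, 0⟩))
(.node (.leaf ⟨0, 3944, 0, 0⟩)
(.leaf ⟨0, 890, 0, 0⟩)))))
(.node (.node (.node (.node (.leaf ⟨2, 11797, 0, 0⟩)
(.leaf ⟨0, 5659, 0, 0⟩))
(.node (.leaf ⟨0, 6081, 0, 0⟩)
(.leaf ⟨2, 13969, 0, 0⟩)))
(.node (.node (.leaf ⟨2, 15109, 0, 0⟩)
(.leaf ⟨1, 106, 60, 0⟩))
(.node (.leaf ⟨0, 508, 0, 0⟩)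
(.leaf ⟨0, 14435, 0, 0⟩))))
(.node (.node (.node (.leaf ⟨1, 15, 86, 0⟩)
(.leaf ⟨1, 10, 24, 0⟩))
(.node (.leaf ⟨0, 15398, 0, 0⟩)
(.leaf ⟨1, 25, 19, 0⟩)))
(.node (.node (.leaf ⟨2, 14599, 0, 0⟩)
(.leaf ⟨1, 112, 97, 0⟩))
(.node (.leaf ⟨0, 2675, 0, 0⟩)
(.leaf ⟨0, 8414, 0, 0⟩))))))
(.node (.node (.node (.node (.node (.leaf ⟨0, 11399, 0, 0⟩)
(.leaf ⟨2, 12941, 0, 0⟩))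
(.node (.leaf ⟨0, 5089, 0, 0⟩)
(.leaf ⟨0, 1466, 0, 0⟩)))
(.node (.node (.leaf ⟨0, 14611, 0, 0⟩)
(.leaf ⟨0, 12431, 0, 0⟩))
(.node (.leaf ⟨1, 59, 55, 0⟩)
(.leaf ⟨0, 7191, 0, 0⟩))))
(.node (.node (.node (.leaf ⟨0, 6203, 0, 0⟩)
(.leaf ⟨1, 32, 16, 0⟩))
(.node (.leaf ⟨2, 5655, 0, 0⟩)
(.leaf ⟨0, 12853, 0, 0⟩)))
(.node (.node (.leaf ⟨2, 13339, 0, 0⟩)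
(.leaf ⟨0, 6238, 0, 0⟩))
(.node (.leaf ⟨1, 37, 7, 0⟩)
(.leaf ⟨1, 108, 86, 0⟩)))))
(.node (.node (.node (.node (.leaf ⟨1, 55, 59, 0⟩)
(.leaf ⟨2, 7941, 0, 0⟩))
(.node (.leaf ⟨0, 6235, 0, 0⟩)
(.leaf ⟨0, 14411, 0, 0⟩)))
(.node (.node (.leaf ⟨1, 94, 103, 0⟩)
(.leaf ⟨1, 100, 76, 0⟩))
(.node (.leaf ⟨1, 44, 44, 0⟩)
(.leaf ⟨1, 104, 98, 0⟩))))
(.node (.node (.node (.leaf ⟨0, 10728, 0, 0⟩)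
(.leaf ⟨1, 9, 3, 0⟩))
(.node (.leaf ⟨0, 7699, 0, 0⟩)
(.leaf ⟨0, 6034, 0, 0⟩)))
(.node (.node (.leaf ⟨0, 2682, 0, 0⟩)
(.leaf ⟨1, 102, 102, 0⟩))
(.node (.leaf ⟨0, 15373, 0, 0⟩)
(.leaf ⟨0, 5848, 0, 0⟩))))))))))))

end Pool.Agent.Gab7c_h87.CY2
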